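import Pool.Agent.K9h80.TV.Lower

/-!
# Convergence of the laws
-/

set_option autoImplicit false

namespace Pool.Agent.K9h80.TV

open H974 H984N MeasureTheory Filter Topology

theorem lp_small (R : Rect) : ∃ C : ℝ, 0 < C ∧ ∃ δ0 : ℝ, 0 < δ0 ∧
    ∀ δ : ℝ, 0 < δ → δ ≤ δ0 → ∀ p q : ℝ, ∀ hp0 : 0 < p, ∀ hp1 : p < 1, ∀ hq : 0 < q,
    levyProkhorovDist (fk R δ hp0 hp1 hq : Measure X) (R.law δ : Measure X) ≤
      C * ((|p - 1/2| + |q - 1|) * δ ^ (-(7/8 : ℝ))) := by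
  obtain ⟨C, hC, δ0, hδ0, h⟩ := upper R
  refine ⟨C, hC, δ0, hδ0, ?_⟩
  intro δ hδ hle p q hp0 hp1 hq
  have he : 0 ≤ C * ((|p - 1/2| + |q - 1|) * δ ^ (-(7/8 : ℝ))) := by positivity
  apply levyProkhorovDist_le_of_forall_le _ _ he
  intro ε G hε hG
  have h1 := (abs_le.mp (h δ hδ hle p q hp0 hp1 hq G hG)).2
  have h2 : (R.law δ : Measure X).real G ≤
      (R.law δ : Measure X).real (Metric.thickening ε G) :=
    measureReal_mono (Metric.self_subset_thickening (he.trans_lt hε) _) (measure_ne_top _ _)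
  have h3 : (fk R δ hp0 hp1 hq : Measure X).real G ≤
      (R.law δ : Measure X).real (Metric.thickening ε G) + ε := by
    nlinarith
  have h4 : (fk R δ hp0 hp1 hq : Measure X) G =
      ENNReal.ofReal ((fk R δ hp0 hp1 hq : Measure X).real G) := (ofReal_measureReal).symm
  have h5 : (R.law δ : Measure X) (Metric.thickening ε G) =
      ENNReal.ofReal ((R.law δ : Measure X).real (Metric.thickening ε G)) :=
    (ofReal_measureReal).symm
  rw [h4, h5, ← ENNReal.ofReal_add measureReal_nonneg (he.trans_lt hε).le]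
  exact ENNReal.ofReal_le_ofReal h3

theorem fk_tendsto_iff (R : Rect) (δ p q : ℕ → ℝ) (hδ : ∀ i, 0 < δ i)
    (hp0 : ∀ i, 0 < p i) (hp1 : ∀ i, p i < 1) (hq : ∀ i, 0 < q i)
    (hlim : Tendsto δ atTop (𝓝 0))
    (hw : Tendsto (fun i => (|p i - 1/2| + |q i - 1|) * δ i ^ (-(7/8 : ℝ))) atTop (𝓝 0))
    (ν : ProbabilityMeasure X) :
    Tendsto (fun i => fk R (δ i) (hp0 i) (hp1 i) (hq i)) atTop (𝓝 ν) ↔
      Tendsto (fun i => R.law (δ i)) atTop (𝓝 ν) := by
  set h := LevyProkhorov.probabilityMeasureHomeomorph (Ω := X) with hh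
  obtain ⟨C, hC, δ0, hδ0, hlp⟩ := lp_small R
  have hd : Tendsto (fun i => dist (h (fk R (δ i) (hp0 i) (hp1 i) (hq i)))
      (h (R.law (δ i)))) atTop (𝓝 0) := by
    have e1 : ∀ᶠ i in atTop, δ i ≤ δ0 := hlim.eventually_le_const hδ0
    refine squeeze_zero' (Eventually.of_forall fun i => dist_nonneg)
      (g := fun i => C * ((|p i - 1/2| + |q i - 1|) * δ i ^ (-(7/8 : ℝ)))) ?_ ?_
    · filter_upwards [e1] with i hi
      exact hlp (δ i) (hδ i) hi (p i) (q i) (hp0 i) (hp1 i) (hq i)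
    · simpa using hw.const_mul C
  rw [h.isInducing.tendsto_nhds_iff, h.isInducing.tendsto_nhds_iff]
  exact tendsto_iff_of_dist hd

/-- the self-dual point -/
theorem sd_bound {q : ℝ} (hq : 0 < q) :
    0 < Real.sqrt q / (1 + Real.sqrt q) ∧ Real.sqrt q / (1 + Real.sqrt q) < 1 ∧
      |Real.sqrt q / (1 + Real.sqrt q) - 1/2| ≤ |q - 1| := by
  have hs : 0 < Real.sqrt q := Real.sqrt_pos.mpr hq
  obtain ⟨s, hs'⟩ : ∃ s, s = Real.sqrt q := ⟨_, rfl⟩
  rw [← hs'] at hs ⊢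
  have hq2 : q = s * s := by rw [hs', Real.mul_self_sqrt hq.le]
  refine ⟨by positivity, by rw [div_lt_one (by positivity)]; linarith, ?_⟩
  have e1 : s / (1 + s) - 1/2 = (q - 1) * (1 / (2 * (1 + s) ^ 2)) := by
    rw [hq2]; field_simp; ring
  rw [e1, abs_mul]
  have e2 : |1 / (2 * (1 + s) ^ 2)| ≤ 1 := by
    rw [abs_of_pos (by positivity), div_le_one (by positivity)]
    nlinarith
  calc |q - 1| * |1 / (2 * (1 + s) ^ 2)| ≤ |q - 1| * 1 :=
        mul_le_mul_of_nonneg_left e2 (abs_nonneg _)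
    _ = |q - 1| := mul_one _

end Pool.Agent.K9h80.TV
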