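import Pool.Agent.K9h80.TV.Up

/-!
# Explorations: the lower bound for the total variation distance
-/

set_option autoImplicit false

namespace Pool.Agent.K9h80.TV

open H974 Finset Pool.Agent.K9h80.WN

variable {E : Type*} [DecidableEq E]

theorem ex_insert' (p : ℝ) {e : E} {S : Finset E} (he : e ∉ S) (f : Finset E → ℝ) :
    Ex (fun _ : E => p) (insert e S) f = p * Ex (fun _ : E => p) S (fun F => f (insert e F)) +
      (1 - p) * Ex (fun _ : E => p) S f := Ex_insert _ he f

/-- the coefficients of the bound for the fourth moment -/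
noncomputable def cu (l : ℝ) (m : ℕ) : ℝ := (1 + 80 * l ^ 2) ^ m

theorem four_step {l y : ℝ} (hl0 : 0 ≤ l) (hl : l ≤ 1/2) (m : ℕ) :
    ((cu l m * (y * (1 + 2 * l) - 1) ^ 4 + 48 * l ^ 2 * m * cu l m * (y * (1 + 2 * l) - 1) ^ 2 +
      512 * l ^ 4 * m ^ 2 * cu l m) +
      (cu l m * (y * (1 - 2 * l) - 1) ^ 4 + 48 * l ^ 2 * m * cu l m * (y * (1 - 2 * l) - 1) ^ 2 +
      512 * l ^ 4 * m ^ 2 * cu l m)) / 2 ≤
    cu l (m + 1) * (y - 1) ^ 4 + 48 * l ^ 2 * (m + 1) * cu l (m + 1) * (y - 1) ^ 2 +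
      512 * l ^ 4 * (m + 1) ^ 2 * cu l (m + 1) := by
  obtain ⟨u, hu⟩ : ∃ u, u = cu l m := ⟨_, rfl⟩
  have hu' : cu l (m + 1) = u * (1 + 80 * l ^ 2) := by rw [hu]; unfold cu; rw [pow_succ]
  have hu0 : 0 < u := by rw [hu]; unfold cu; positivity
  rw [hu', ← hu]
  obtain ⟨z, hz⟩ : ∃ z, z = y - 1 := ⟨_, rfl⟩
  have hy : y = 1 + z := by rw [hz]; ring
  rw [← hz]
  obtain ⟨v, hv⟩ : ∃ v, v = l ^ 2 := ⟨_, rfl⟩
  have hv0 : 0 ≤ v := by rw [hv]; positivity
  have hv1 : v ≤ 1/4 := by rw [hv]; nlinarith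
  have e4 : l ^ 4 = v ^ 2 := by rw [hv]; ring
  have hm : (0:ℝ) ≤ m := Nat.cast_nonneg m
  have s2 : ((y * (1 + 2 * l) - 1) ^ 2 + (y * (1 - 2 * l) - 1) ^ 2) / 2 =
      z ^ 2 + 4 * v * y ^ 2 := by rw [hv, hy]; ring
  have s4 : ((y * (1 + 2 * l) - 1) ^ 4 + (y * (1 - 2 * l) - 1) ^ 4) / 2 =
      z ^ 4 + 24 * v * y ^ 2 * z ^ 2 + 16 * v ^ 2 * y ^ 4 := by rw [hv, hy]; ring
  have hy2 : y ^ 2 ≤ 2 + 2 * z ^ 2 := by rw [hy]; nlinarith [sq_nonneg (z - 1)]
  have hy4 : y ^ 4 ≤ 8 + 8 * z ^ 4 := by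
    have h1 : y ^ 4 ≤ (2 + 2 * z ^ 2) ^ 2 := by
      rw [show y ^ 4 = (y ^ 2) ^ 2 by ring]
      exact pow_le_pow_left₀ (by positivity) hy2 2
    nlinarith [sq_nonneg (z ^ 2 - 1)]
  have b4 : z ^ 4 + 24 * v * y ^ 2 * z ^ 2 + 16 * v ^ 2 * y ^ 4 ≤
      (1 + 80 * v) * z ^ 4 + 48 * v * z ^ 2 + 128 * v ^ 2 := by
    have h1 : v * z ^ 2 * y ^ 2 ≤ v * z ^ 2 * (2 + 2 * z ^ 2) :=
      mul_le_mul_of_nonneg_left hy2 (by positivity)
    have h2 : v ^ 2 * y ^ 4 ≤ v ^ 2 * (8 + 8 * z ^ 4) :=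
      mul_le_mul_of_nonneg_left hy4 (by positivity)
    have h3 : v ^ 2 * z ^ 4 ≤ v * z ^ 4 / 4 := by
      have : v * (v * z ^ 4) ≤ 1/4 * (v * z ^ 4) :=
        mul_le_mul_of_nonneg_right hv1 (by positivity)
      nlinarith
    nlinarith
  have b2 : z ^ 2 + 4 * v * y ^ 2 ≤ (1 + 80 * v) * z ^ 2 + 8 * v := by
    have h1 : v * y ^ 2 ≤ v * (2 + 2 * z ^ 2) := mul_le_mul_of_nonneg_left hy2 hv0
    have : 0 ≤ v * z ^ 2 := by positivity
    nlinarith
  have c4 := mul_le_mul_of_nonneg_left b4 hu0.le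
  have c2 := mul_le_mul_of_nonneg_left b2 (by positivity : 0 ≤ 48 * v * m * u)
  have lhs : ((u * (y * (1 + 2 * l) - 1) ^ 4 + 48 * l ^ 2 * m * u * (y * (1 + 2 * l) - 1) ^ 2 +
      512 * l ^ 4 * m ^ 2 * u) +
      (u * (y * (1 - 2 * l) - 1) ^ 4 + 48 * l ^ 2 * m * u * (y * (1 - 2 * l) - 1) ^ 2 +
      512 * l ^ 4 * m ^ 2 * u)) / 2 =
      u * (z ^ 4 + 24 * v * y ^ 2 * z ^ 2 + 16 * v ^ 2 * y ^ 4) +
      48 * v * m * u * (z ^ 2 + 4 * v * y ^ 2) + 512 * v ^ 2 * m ^ 2 * u := by
    rw [← s4, ← s2, ← e4, hv]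
    ring
  rw [lhs, ← hv, e4]
  have d1 : 0 ≤ u * v ^ 2 * m := by positivity
  have d2 : 0 ≤ u * v * z ^ 2 * v := by positivity
  have d3 : 0 ≤ u * v ^ 2 * v * (m + 1) ^ 2 := by positivity
  have d4 : 0 ≤ u * v * z ^ 2 * v * m := by positivity
  have d5 : 0 ≤ u * v ^ 2 := by positivity
  nlinarith

theorem inter_eq {R O T' F O' : Finset E} {S : Finset E} {e : E} (heR : e ∉ R) (hO : O ⊆ R)
    (hT'R : T' = S \ insert e R) (hF : F ⊆ T') (hO' : O' = O ∨ O' = insert e O) :
    (O' ∪ F) ∩ R = O := by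
  ext y
  rw [mem_inter, mem_union]
  have hF2 : y ∈ F → y ∉ R := fun h hR2 => by
    have := hF h
    rw [hT'R, mem_sdiff, mem_insert] at this
    exact this.2 (Or.inr hR2)
  constructor
  · rintro ⟨h1 | h1, h2⟩
    · rcases hO' with rfl | rfl
      · exact h1
      · rcases mem_insert.mp h1 with h3 | h3
        · exact absurd (h3 ▸ h2) heR
        · exact h3
    · exact absurd h2 (hF2 h1)
  · intro h1
    refine ⟨Or.inl ?_, hO h1⟩
    rcases hO' with rfl | rfl
    · exact h1
    · exact mem_insert_of_mem h1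

theorem card_step {R Q : Finset E} {e : E} (heR : e ∉ R) (heQ : e ∈ Q) :
    (Q \ R).card = (Q \ insert e R).card + 1 := by
  have : Q \ R = insert e (Q \ insert e R) := by
    ext y
    rw [mem_insert, mem_sdiff, mem_sdiff, mem_insert]
    constructor
    · rintro ⟨h1, h2⟩
      by_cases hy : y = e
      · exact Or.inl hy
      · exact Or.inr ⟨h1, fun h => h.elim hy h2⟩
    · rintro (rfl | ⟨h1, h2⟩)
      · exact ⟨heQ, heR⟩
      · exact ⟨h1, fun h => h2 (Or.inr h)⟩
  rw [this, card_insert_of_notMem (by simp)]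

theorem one_le_cu {l : ℝ} (m : ℕ) : 1 ≤ cu l m := by
  unfold cu
  exact one_le_pow₀ (by nlinarith [sq_nonneg l])

/-- **The likelihood ratio of the first `m` revealed elements.** -/
theorem ratio {S : Finset E} {q : Finset E → Finset E} (hq : Expl S q) {l : ℝ} (hl0 : 0 ≤ l)
    (hl : l ≤ 1/2) {s : ℝ} (hs : s = 1 ∨ s = -1) : ∀ (m : ℕ) (R O T : Finset E), R ⊆ S → O ⊆ R →
    T = S \ R → ∃ g : Finset E → ℝ, (∀ F ⊆ T, 0 ≤ g F) ∧
      (∀ F ⊆ T, ∀ G ⊆ T, (O ∪ F) ∩ q (O ∪ G) = (O ∪ G) ∩ q (O ∪ G) → g F = g G) ∧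
      (∀ φ : ℝ → ℝ, Ex (fun _ : E => 1/2 + s * l) T (fun F => φ (g F)) =
        Ex (fun _ : E => (1/2:ℝ)) T (fun F => g F * φ (g F))) ∧
      Ex (fun _ : E => (1/2:ℝ)) T (fun F => g F ^ 2 *
        (1 + 4 * l ^ 2) ^ (m - min m ((q (O ∪ F) \ R).card))) = (1 + 4 * l ^ 2) ^ m ∧
      (∀ y : ℝ, Ex (fun _ : E => (1/2:ℝ)) T (fun F => (y * g F - 1) ^ 4) ≤
        cu l m * (y - 1) ^ 4 + 48 * l ^ 2 * m * cu l m * (y - 1) ^ 2 +
          512 * l ^ 4 * m ^ 2 * cu l m) ∧
      Ex (fun _ : E => (1/2:ℝ)) T (fun F => g F ^ 4) ≤ (1 + 28 * l ^ 2) ^ m := by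
  intro m
  induction m with
  | zero =>
    intro R O T _ _ _
    refine ⟨fun _ => 1, fun _ _ => zero_le_one, fun _ _ _ _ _ => rfl, fun φ => ?_, ?_,
      fun y => ?_, ?_⟩
    · rw [Ex_const]
      beta_reduce
      rw [one_mul, Ex_const]
    · rw [Ex_congr (g := fun _ => 1) (fun F _ => by simp), Ex_const, pow_zero]
    · rw [Ex_const]
      unfold cu
      simp
    · rw [Ex_const]
      simp
  | succ m ih =>
    intro R O T hR hO hT
    have hOS : O ⊆ S := hO.trans hR
    have hTS : T ⊆ S := by rw [hT]; exact sdiff_subset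
    by_cases hc : q O ⊆ R
    · -- nothing is left to reveal
      have hcon : ∀ F, F ⊆ T → (q (O ∪ F) \ R).card = 0 := by
        intro F hF
        have h1 : q (O ∪ F) = q O := by
          apply hq.loc _ (union_subset hOS (hF.trans hTS)) _ hOS
          ext y
          rw [mem_inter, mem_inter, mem_union]
          constructor
          · rintro ⟨h1 | h1, h2⟩
            · exact ⟨h1, h2⟩
            · have h3 := hF h1
              rw [hT, mem_sdiff] at h3
              exact absurd (hc h2) h3.2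
          · rintro ⟨h1, h2⟩
            exact ⟨Or.inl h1, h2⟩
        rw [h1, card_eq_zero, sdiff_eq_empty_iff_subset]
        exact hc
      refine ⟨fun _ => 1, fun _ _ => zero_le_one, fun _ _ _ _ _ => rfl, fun φ => ?_, ?_,
        fun y => ?_, ?_⟩
      · rw [Ex_const]
        beta_reduce
        rw [one_mul, Ex_const]
      · rw [Ex_congr (g := fun _ => (1 + 4 * l ^ 2) ^ (m + 1)) (fun F hF => by
          rw [hcon F hF]; simp), Ex_const]
      · rw [Ex_const]
        have h1 := one_le_cu (l := l) (m + 1)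
        have h2 : 0 ≤ (y - 1) ^ 4 := by positivity
        have h3 : 0 ≤ 48 * l ^ 2 * ((m + 1 : ℕ) : ℝ) * cu l (m + 1) * (y - 1) ^ 2 := by
          unfold cu; positivity
        have h4 : 0 ≤ 512 * l ^ 4 * ((m + 1 : ℕ) : ℝ) ^ 2 * cu l (m + 1) := by
          unfold cu; positivity
        rw [mul_one]
        nlinarith
      · rw [Ex_const, one_pow]
        exact one_le_pow₀ (by nlinarith [sq_nonneg l])
    · obtain ⟨e, heS, heR, he⟩ := hq.seq R hR O hO hc
      have heT : e ∈ T := by rw [hT, mem_sdiff]; exact ⟨heS, heR⟩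
      obtain ⟨T', hT'⟩ : ∃ T', T' = T.erase e := ⟨_, rfl⟩
      have heT' : e ∉ T' := by rw [hT']; exact notMem_erase e T
      have hTi : T = insert e T' := by rw [hT', insert_erase heT]
      have hT'R : T' = S \ insert e R := by
        rw [hT', hT]
        ext y
        rw [mem_erase, mem_sdiff, mem_sdiff, mem_insert, not_or]
        tauto
      have hT'S : T' ⊆ S := by rw [hT'R]; exact sdiff_subset
      have hR' : insert e R ⊆ S := insert_subset heS hR
      have heO : e ∉ O := fun h => heR (hO h)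
      obtain ⟨g₁, p1, a1, b1, c1, d1, f1⟩ := ih (insert e R) (insert e O) T' hR'
        (insert_subset_insert _ hO) hT'R
      obtain ⟨g₀, p0, a0, b0, c0, d0, f0⟩ := ih (insert e R) O T' hR'
        (hO.trans (subset_insert _ _)) hT'R
      have hun : ∀ F, O ∪ insert e F = insert e O ∪ F := by
        intro F
        rw [union_insert, insert_union]
      have heF : ∀ F, F ⊆ T' → e ∉ F := fun F hF h => heT' (hF h)
      have hsl : 0 ≤ 1 + 2 * (s * l) ∧ 0 ≤ 1 - 2 * (s * l) := by
        rcases hs with rfl | rfl <;> constructor <;> linarith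
      have hs2 : (s * l) ^ 2 = l ^ 2 := by rcases hs with rfl | rfl <;> ring
      have hsplit : ∀ F, F ⊆ T → (e ∈ F → F.erase e ⊆ T') ∧ (e ∉ F → F ⊆ T') := by
        intro F hF
        constructor
        · intro _
          rw [hT']
          exact erase_subset_erase e hF
        · intro h y hy
          rw [hT', mem_erase]
          exact ⟨fun h2 => h (h2 ▸ hy), hF hy⟩
      obtain ⟨g, hgd⟩ : ∃ g : Finset E → ℝ, g = fun F => if e ∈ F then
          (1 + 2 * (s * l)) * g₁ (F.erase e) else (1 - 2 * (s * l)) * g₀ F := ⟨_, rfl⟩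
      have g1 : ∀ F, F ⊆ T' → g (insert e F) = (1 + 2 * (s * l)) * g₁ F := by
        intro F hF
        rw [hgd]
        beta_reduce
        rw [if_pos (mem_insert_self e F), erase_insert (heF F hF)]
      have g0 : ∀ F, F ⊆ T' → g F = (1 - 2 * (s * l)) * g₀ F := by
        intro F hF
        rw [hgd]
        beta_reduce
        rw [if_neg (heF F hF)]
      refine ⟨g, ?_, ?_, ?_, ?_, ?_, ?_⟩
      · intro F hF
        rw [hgd]
        beta_reduce
        split_ifs with h
        · exact mul_nonneg hsl.1 (p1 _ ((hsplit F hF).1 h))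
        · exact mul_nonneg hsl.2 (p0 _ ((hsplit F hF).2 h))
      · intro F hF G hG hFG
        have heG : e ∈ q (O ∪ G) := by
          apply he _ (union_subset hOS (hG.trans hTS))
          ext y
          rw [mem_inter, mem_union]
          constructor
          · rintro ⟨h1 | h1, h2⟩
            · exact h1
            · have := hG h1
              rw [hT, mem_sdiff] at this
              exact absurd h2 this.2
          · intro h
            exact ⟨Or.inl h, hO h⟩
        have hiff : e ∈ F ↔ e ∈ G := by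
          have := Finset.ext_iff.mp hFG e
          rw [mem_inter, mem_inter, mem_union, mem_union] at this
          tauto
        rw [hgd]
        beta_reduce
        by_cases h : e ∈ F
        · have h' := hiff.1 h
          rw [if_pos h, if_pos h']
          congr 1
          apply a1 _ ((hsplit F hF).1 h) _ ((hsplit G hG).1 h')
          have e1 : insert e O ∪ F.erase e = O ∪ F := by
            rw [← hun, insert_erase h]
          have e2 : insert e O ∪ G.erase e = O ∪ G := by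
            rw [← hun, insert_erase h']
          rw [e1, e2]
          exact hFG
        · have h' : e ∉ G := fun h2 => h (hiff.2 h2)
          rw [if_neg h, if_neg h']
          congr 1
          exact a0 _ ((hsplit F hF).2 h) _ ((hsplit G hG).2 h') hFG
      · intro φ
        rw [hTi, ex_insert' _ heT', ex_half_insert heT']
        have k1 := b1 (fun z => φ ((1 + 2 * (s * l)) * z))
        have k0 := b0 (fun z => φ ((1 - 2 * (s * l)) * z))
        beta_reduce at k1 k0
        have r1 : Ex (fun _ : E => 1/2 + s * l) T' (fun F => φ (g (insert e F))) =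
            Ex (fun _ : E => 1/2 + s * l) T' (fun F => φ ((1 + 2 * (s * l)) * g₁ F)) :=
          Ex_congr fun F hF => by rw [g1 F hF]
        have r0 : Ex (fun _ : E => 1/2 + s * l) T' (fun F => φ (g F)) =
            Ex (fun _ : E => 1/2 + s * l) T' (fun F => φ ((1 - 2 * (s * l)) * g₀ F)) :=
          Ex_congr fun F hF => by rw [g0 F hF]
        have t1 : Ex (fun _ : E => (1/2:ℝ)) T' (fun F => g (insert e F) * φ (g (insert e F))) =
            (1 + 2 * (s * l)) * Ex (fun _ : E => (1/2:ℝ)) T'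
              (fun F => g₁ F * φ ((1 + 2 * (s * l)) * g₁ F)) := by
          rw [← Ex_mul_left]
          exact Ex_congr fun F hF => by rw [g1 F hF]; ring
        have t0 : Ex (fun _ : E => (1/2:ℝ)) T' (fun F => g F * φ (g F)) =
            (1 - 2 * (s * l)) * Ex (fun _ : E => (1/2:ℝ)) T'
              (fun F => g₀ F * φ ((1 - 2 * (s * l)) * g₀ F)) := by
          rw [← Ex_mul_left]
          exact Ex_congr fun F hF => by rw [g0 F hF]; ring
        rw [r1, r0, k1, k0, t1, t0]
        ring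
      · rw [hTi, ex_half_insert heT']
        have t1 : Ex (fun _ : E => (1/2:ℝ)) T' (fun F => g (insert e F) ^ 2 *
            (1 + 4 * l ^ 2) ^ (m + 1 - min (m + 1) (q (O ∪ insert e F) \ R).card)) =
            (1 + 2 * (s * l)) ^ 2 * Ex (fun _ : E => (1/2:ℝ)) T' (fun F => g₁ F ^ 2 *
            (1 + 4 * l ^ 2) ^ (m - min m (q (insert e O ∪ F) \ insert e R).card)) := by
          rw [← Ex_mul_left]
          apply Ex_congr
          intro F hF
          have hmem := he _ (union_subset (insert_subset heS hOS) (hF.trans hT'S))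
            (inter_eq heR hO hT'R hF (Or.inr rfl))
          rw [g1 F hF, hun, card_step heR hmem]
          have : m + 1 - min (m + 1) ((q (insert e O ∪ F) \ insert e R).card + 1) =
              m - min m (q (insert e O ∪ F) \ insert e R).card := by omega
          rw [this]
          ring
        have t0 : Ex (fun _ : E => (1/2:ℝ)) T' (fun F => g F ^ 2 *
            (1 + 4 * l ^ 2) ^ (m + 1 - min (m + 1) (q (O ∪ F) \ R).card)) =
            (1 - 2 * (s * l)) ^ 2 * Ex (fun _ : E => (1/2:ℝ)) T' (fun F => g₀ F ^ 2 *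
            (1 + 4 * l ^ 2) ^ (m - min m (q (O ∪ F) \ insert e R).card)) := by
          rw [← Ex_mul_left]
          apply Ex_congr
          intro F hF
          have hmem := he _ (union_subset hOS (hF.trans hT'S))
            (inter_eq heR hO hT'R hF (Or.inl rfl))
          rw [g0 F hF, card_step heR hmem]
          have : m + 1 - min (m + 1) ((q (O ∪ F) \ insert e R).card + 1) =
              m - min m (q (O ∪ F) \ insert e R).card := by omega
          rw [this]
          ring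
        rw [t1, t0, c1, c0, pow_succ]
        have : (1 + 2 * (s * l)) ^ 2 + (1 - 2 * (s * l)) ^ 2 = 2 * (1 + 4 * l ^ 2) := by
          rw [← hs2]; ring
        linear_combination ((1 + 4 * l ^ 2) ^ m / 2) * this
      · intro y
        rw [hTi, ex_half_insert heT']
        have t1 : Ex (fun _ : E => (1/2:ℝ)) T' (fun F => (y * g (insert e F) - 1) ^ 4) =
            Ex (fun _ : E => (1/2:ℝ)) T' (fun F => (y * (1 + 2 * (s * l)) * g₁ F - 1) ^ 4) :=
          Ex_congr fun F hF => by rw [g1 F hF, mul_assoc]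
        have t0 : Ex (fun _ : E => (1/2:ℝ)) T' (fun F => (y * g F - 1) ^ 4) =
            Ex (fun _ : E => (1/2:ℝ)) T' (fun F => (y * (1 - 2 * (s * l)) * g₀ F - 1) ^ 4) :=
          Ex_congr fun F hF => by rw [g0 F hF, mul_assoc]
        rw [t1, t0]
        have k1 := d1 (y * (1 + 2 * (s * l)))
        have k0 := d0 (y * (1 - 2 * (s * l)))
        have k := four_step (y := y) hl0 hl m
        push_cast
        rcases hs with rfl | rfl
        · simp only [one_mul] at k1 k0 ⊢
          linarith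
        · have e1 : 1 + 2 * (-1 * l) = 1 - 2 * l := by ring
          have e2 : 1 - 2 * (-1 * l) = 1 + 2 * l := by ring
          rw [e1] at k1 ⊢
          rw [e2] at k0 ⊢
          linarith
      · rw [hTi, ex_half_insert heT']
        have t1 : Ex (fun _ : E => (1/2:ℝ)) T' (fun F => g (insert e F) ^ 4) =
            (1 + 2 * (s * l)) ^ 4 * Ex (fun _ : E => (1/2:ℝ)) T' (fun F => g₁ F ^ 4) := by
          rw [← Ex_mul_left]
          exact Ex_congr fun F hF => by rw [g1 F hF]; ring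
        have t0 : Ex (fun _ : E => (1/2:ℝ)) T' (fun F => g F ^ 4) =
            (1 - 2 * (s * l)) ^ 4 * Ex (fun _ : E => (1/2:ℝ)) T' (fun F => g₀ F ^ 4) := by
          rw [← Ex_mul_left]
          exact Ex_congr fun F hF => by rw [g0 F hF]; ring
        rw [t1, t0, pow_succ (1 + 28 * l ^ 2) m]
        have h1 : (1 + 2 * (s * l)) ^ 4 + (1 - 2 * (s * l)) ^ 4 ≤ 2 * (1 + 28 * l ^ 2) := by
          have : (1 + 2 * (s * l)) ^ 4 + (1 - 2 * (s * l)) ^ 4 =
              2 + 48 * (s * l) ^ 2 + 32 * ((s * l) ^ 2) ^ 2 := by ring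
          rw [this, hs2]
          have hl2 : l ^ 2 ≤ 1/4 := by nlinarith
          have : l ^ 2 * l ^ 2 ≤ 1/4 * l ^ 2 := mul_le_mul_of_nonneg_right hl2 (sq_nonneg l)
          nlinarith
        have h2 := mul_le_mul_of_nonneg_left f1 (by positivity : 0 ≤ (1 + 2 * (s * l)) ^ 4)
        have h3 := mul_le_mul_of_nonneg_left f0 (by positivity : 0 ≤ (1 - 2 * (s * l)) ^ 4)
        have h4 : 0 ≤ (1 + 28 * l ^ 2) ^ m := by positivity
        have h5 := mul_le_mul_of_nonneg_right h1 h4
        generalize (1 + 2 * (s * l)) ^ 4 = A at h2 h5 ⊢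
        generalize (1 - 2 * (s * l)) ^ 4 = B at h3 h5 ⊢
        generalize (1 + 28 * l ^ 2) ^ m = P at h2 h3 h5 ⊢
        nlinarith

/-- the constant of the lower bound -/
noncomputable def cB : ℝ := Real.sqrt (512 * Real.exp 20)

theorem cB_pos : 0 < cB := by unfold cB; positivity

theorem sq_le_mix {z σ : ℝ} (hσ : 0 < σ) : z ^ 2 ≤ σ * |z| + z ^ 4 / σ ^ 2 := by
  obtain ⟨w, hw⟩ : ∃ w, w = |z| := ⟨_, rfl⟩
  have hw0 : 0 ≤ w := hw ▸ abs_nonneg z
  have e2 : z ^ 2 = w ^ 2 := by rw [hw, sq_abs]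
  have e4 : z ^ 4 = w ^ 4 := by rw [show z ^ 4 = (z ^ 2) ^ 2 by ring, e2]; ring
  rw [e2, e4, ← hw]
  rcases le_total w σ with h | h
  · have : 0 ≤ w ^ 4 / σ ^ 2 := by positivity
    nlinarith
  · have h1 : w ^ 2 ≤ w ^ 4 / σ ^ 2 := by
      rw [le_div_iff₀ (by positivity)]
      have : σ ^ 2 ≤ w ^ 2 := pow_le_pow_left₀ hσ.le h 2
      nlinarith [mul_le_mul_of_nonneg_left this (by positivity : 0 ≤ w ^ 2)]
    have : 0 ≤ σ * w := by positivity
    linarith

theorem pow_le_exp {a v : ℝ} {m : ℕ} (ha : 0 ≤ a) (h : a * m ≤ v) : (1 + a) ^ m ≤ Real.exp v := by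
  calc (1 + a) ^ m ≤ (Real.exp a) ^ m :=
        pow_le_pow_left₀ (by positivity) (by linarith [Real.add_one_le_exp a]) m
    _ = Real.exp (a * m) := by rw [← Real.exp_nat_mul, mul_comm]
    _ ≤ Real.exp v := Real.exp_le_exp.mpr h

/-- **The lower bound for the total variation distance.** -/
theorem tv_ge {S : Finset E} {q : Finset E → Finset E} (hq : Expl S q) {l : ℝ} (hl0 : 0 < l)
    (hl : l ≤ 1/2) {s : ℝ} (hs : s = 1 ∨ s = -1) {m : ℕ} (hm : 1 ≤ m) (hlm : l ^ 2 * m ≤ 1/4)
    (hP : Pr (fun _ : E => (1/2:ℝ)) S (fun F => (q F).card < m) ≤ 1 / (4 * Real.exp 7)) :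
    ∃ A : Finset E → Prop, (∀ F ⊆ S, ∀ G ⊆ S, F ∩ q G = G ∩ q G → (A F ↔ A G)) ∧
      l * Real.sqrt m / (2 * cB) ≤ Pr (fun _ : E => 1/2 + s * l) S A -
        Pr (fun _ : E => (1/2:ℝ)) S A := by
  obtain ⟨g, hg0, hgl, hφ, h2, h4, h44⟩ := ratio hq hl0.le hl hs m ∅ ∅ S (empty_subset _)
    (empty_subset _) (by simp)
  simp only [empty_union, sdiff_empty] at hgl h2
  refine ⟨fun F => 1 < g F, fun F hF G hG hFG => by beta_reduce; rw [hgl F hF G hG hFG], ?_⟩
  set P : E → ℝ := fun _ => (1/2:ℝ) with hPd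
  have hmean : Ex P S g = 1 := by
    have := hφ (fun _ => 1)
    rw [Ex_const] at this
    simp only [mul_one] at this
    exact this.symm
  obtain ⟨v, hv⟩ : ∃ v, v = l ^ 2 * m := ⟨_, rfl⟩
  have hm0 : (1:ℝ) ≤ m := by exact_mod_cast hm
  have hv0 : 0 < v := by rw [hv]; positivity
  -- the difference of the probabilities
  have hd1 : Pr (fun _ : E => 1/2 + s * l) S (fun F => 1 < g F) -
      Pr P S (fun F => 1 < g F) = Ex P S (fun F => (g F - 1) * ind (1 < g F)) := by
    have h := hφ (fun z => ind (1 < z))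
    unfold Pr
    rw [h, ← Ex_sub]
    exact Ex_congr fun F _ => by ring
  have hd2 : Ex P S (fun F => (g F - 1) * ind (1 < g F)) =
      1/2 * Ex P S (fun F => |g F - 1|) := by
    have h5 : Ex P S (fun F => |g F - 1|) =
        2 * Ex P S (fun F => (g F - 1) * ind (1 < g F)) - (Ex P S g - 1) := by
      have h6 : Ex P S g - 1 = Ex P S (fun F => g F - 1) := by
        rw [Ex_sub, Ex_const]
      rw [h6, ← Ex_mul_left, ← Ex_sub]
      apply Ex_congr
      intro F _
      by_cases h : 1 < g F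
      · rw [ind_of h, abs_of_pos (by linarith)]; ring
      · rw [ind_not_of h, abs_of_nonpos (by linarith)]; ring
    rw [h5, hmean]
    ring
  -- second moment
  obtain ⟨W, hW⟩ : ∃ W, W = (1 + 4 * l ^ 2) ^ m := ⟨_, rfl⟩
  have hW1 : 1 + 4 * v ≤ W := by
    have := one_add_mul_le_pow (a := 4 * l ^ 2) (by nlinarith [sq_nonneg l]) m
    rw [hW, hv]
    linarith
  have hbad : Ex P S (fun F => g F ^ 2 * ind ((q F).card < m)) ≤ 1/2 := by
    have hK : 0 < Real.exp 7 := Real.exp_pos 7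
    have h5 : Ex P S (fun F => g F ^ 2 * ind ((q F).card < m)) ≤
        Ex P S (fun F => 1 / (4 * Real.exp 7) * g F ^ 4 + Real.exp 7 * ind ((q F).card < m)) := by
      apply Ex_mono ok_half
      intro F _
      have h6 := ind_sq ((q F).card < m)
      obtain ⟨i, hi⟩ : ∃ i, i = ind ((q F).card < m) := ⟨_, rfl⟩
      rw [← hi] at h6 ⊢
      obtain ⟨y, hy⟩ : ∃ y, y = g F ^ 2 := ⟨_, rfl⟩
      have hy4 : g F ^ 4 = y ^ 2 := by rw [hy]; ring
      rw [hy4, ← hy]
      have h7 : 0 ≤ (y / (2 * Real.exp 7) - i) ^ 2 * Real.exp 7 := by positivity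
      have h8 : (y / (2 * Real.exp 7) - i) ^ 2 * Real.exp 7 =
          1 / (4 * Real.exp 7) * y ^ 2 + Real.exp 7 * (i * i) - y * i := by
        field_simp
        ring
      rw [h8, h6] at h7
      linarith
    rw [Ex_add, Ex_mul_left, Ex_mul_left] at h5
    have h6 : Ex P S (fun F => g F ^ 4) ≤ Real.exp 7 :=
      h44.trans (pow_le_exp (by positivity) (by nlinarith))
    have h7 : 1 / (4 * Real.exp 7) * Ex P S (fun F => g F ^ 4) ≤
        1 / (4 * Real.exp 7) * Real.exp 7 := mul_le_mul_of_nonneg_left h6 (by positivity)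
    have h8 : Real.exp 7 * Ex P S (fun F => ind ((q F).card < m)) ≤
        Real.exp 7 * (1 / (4 * Real.exp 7)) := mul_le_mul_of_nonneg_left hP hK.le
    have e1 : 1 / (4 * Real.exp 7) * Real.exp 7 = 1/4 := by field_simp
    have e2 : Real.exp 7 * (1 / (4 * Real.exp 7)) = 1/4 := by field_simp
    rw [e1] at h7
    rw [e2] at h8
    linarith
  have hsec : W ≤ Ex P S (fun F => g F ^ 2) + (W - 1) * (1/2) := by
    have h5 : W ≤ Ex P S (fun F => g F ^ 2 + (W - 1) * (g F ^ 2 * ind ((q F).card < m))) := by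
      rw [← hW] at h2
      refine h2.symm.le.trans ?_
      apply Ex_mono ok_half
      intro F _
      have hW0 : 0 ≤ W - 1 := by nlinarith
      by_cases h : (q F).card < m
      · rw [ind_of h, mul_one]
        have h6 : (1 + 4 * l ^ 2) ^ (m - min m (q F).card) ≤ W := by
          rw [hW]
          exact pow_le_pow_right₀ (by nlinarith [sq_nonneg l]) (Nat.sub_le _ _)
        nlinarith [mul_le_mul_of_nonneg_left h6 (sq_nonneg (g F))]
      · rw [ind_not_of h, min_eq_left (not_lt.mp h), Nat.sub_self, pow_zero]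
        linarith
    rw [Ex_add, Ex_mul_left] at h5
    have hW0 : 0 ≤ W - 1 := by nlinarith
    nlinarith [mul_le_mul_of_nonneg_left hbad hW0]
  have hX2 : 2 * v ≤ Ex P S (fun F => (g F - 1) ^ 2) := by
    have h5 : Ex P S (fun F => (g F - 1) ^ 2) = Ex P S (fun F => g F ^ 2) - 1 := by
      have h6 : Ex P S (fun F => (g F - 1) ^ 2) =
          Ex P S (fun F => g F ^ 2) - 2 * Ex P S g + 1 := by
        rw [← Ex_mul_left, ← Ex_sub, ← ex_add_one]
        exact Ex_congr fun F _ => by ring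
      rw [h6, hmean]
      ring
    rw [h5]
    linarith
  have hX4 : Ex P S (fun F => (g F - 1) ^ 4) ≤ cB ^ 2 * v ^ 2 := by
    have h5 := h4 1
    simp only [one_mul, sub_self] at h5
    have h6 : cu l m ≤ Real.exp 20 := by
      unfold cu
      exact pow_le_exp (by positivity) (by nlinarith)
    have h7 : cB ^ 2 = 512 * Real.exp 20 := by
      unfold cB
      rw [Real.sq_sqrt (by positivity)]
    rw [h7, hv]
    have h8 : 512 * l ^ 4 * (m:ℝ) ^ 2 * cu l m ≤ 512 * l ^ 4 * (m:ℝ) ^ 2 * Real.exp 20 :=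
      mul_le_mul_of_nonneg_left h6 (by positivity)
    refine h5.trans ?_
    have h9 : 512 * Real.exp 20 * (l ^ 2 * (m:ℝ)) ^ 2 = 512 * l ^ 4 * (m:ℝ) ^ 2 * Real.exp 20 := by
      ring
    rw [h9]
    linarith
  -- first moment
  have hB := cB_pos
  obtain ⟨r, hr⟩ : ∃ r, r = l * Real.sqrt m := ⟨_, rfl⟩
  have hr0 : 0 < r := by rw [hr]; positivity
  have hr2 : r ^ 2 = v := by
    rw [hr, mul_pow, Real.sq_sqrt (by positivity), hv]
  have hmix : Ex P S (fun F => (g F - 1) ^ 2) ≤ (cB * r) * Ex P S (fun F => |g F - 1|) +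
      Ex P S (fun F => (g F - 1) ^ 4) * (1 / (cB * r) ^ 2) := by
    rw [← Ex_mul_left, ← Ex_mul_right, ← Ex_add]
    apply Ex_mono ok_half
    intro F _
    have := sq_le_mix (z := g F - 1) (mul_pos hB hr0)
    rwa [div_eq_mul_one_div] at this
  have h5 : Ex P S (fun F => (g F - 1) ^ 4) * (1 / (cB * r) ^ 2) ≤ v := by
    rw [mul_one_div, div_le_iff₀ (by positivity)]
    have : v * (cB * r) ^ 2 = cB ^ 2 * v ^ 2 := by rw [← hr2]; ring
    rw [this]
    exact hX4
  have h6 : v ≤ (cB * r) * Ex P S (fun F => |g F - 1|) := by linarith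
  have h7 : r / cB ≤ Ex P S (fun F => |g F - 1|) := by
    rw [div_le_iff₀ hB]
    rw [← hr2] at h6
    have : r * r ≤ r * (Ex P S (fun F => |g F - 1|) * cB) := by nlinarith
    exact le_of_mul_le_mul_left this hr0
  rw [hd1, hd2, ← hr]
  have h8 : r / (2 * cB) = 1/2 * (r / cB) := by field_simp
  rw [h8]
  linarith

end Pool.Agent.K9h80.TV
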