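import Pool.Agent.K9h80.TV.Walk
import Pool.Agent.K9h80.TV.Low
import Pool.Agent.K9h80.WN.Clus
import Pool.Agent.Results.MP_fe58d8_pr.NaturalCurve

/-!
# The random cluster interface in its natural parametrisation
-/

set_option autoImplicit false

namespace Pool.Agent.K9h80.TV

open H974 H973 Finset H342P H984P H984N MeasureTheory Filter Topology Pool.Agent.K9h80.WN

/-- the vertices of the lattice rectangle -/
noncomputable def vts (D : Dm) : Finset Vtx := Finset.Icc D.l D.r ×ˢ Finset.Icc 0 D.h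

/-- the number of open clusters, the edges of the first arc being open -/
noncomputable def kD (D : Dm) (F : Finset Edg) : ℕ := (cls (vts D) (↑F ∪ D.wir)).ncard

/-- the weight of the random cluster model -/
noncomputable def wD (D : Dm) (p q : ℝ) (F : Finset Edg) : ℝ :=
  (p / (1 - p)) ^ F.card * q ^ kD D F

/-- the partition function -/
noncomputable def ZD (D : Dm) (p q : ℝ) : ℝ := ∑ F ∈ (fre D).powerset, wD D p q F

theorem kD_insert (D : Dm) {e : Edg} (he : e ∈ D.edges) (F : Finset Edg) :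
    kD D F = kD D (insert e F) ∨ kD D F = kD D (insert e F) + 1 := by
  have hs : src e ∈ vts D := by
    have h := (mem_RE_ends he).1
    unfold vts
    rw [mem_product, mem_Icc, mem_Icc]
    unfold inR at h
    omega
  have h1 := cls_insert_le (vts D) (↑F ∪ D.wir) e
  have h2 := cls_le_insert (vts D) (↑F ∪ D.wir) hs
  have e1 : (↑(insert e F) : Set Edg) ∪ D.wir = insert e (↑F ∪ D.wir) := by
    rw [coe_insert, Set.insert_union]
  unfold kD
  rw [e1]
  omega

theorem wD_pos (D : Dm) {p q : ℝ} (hp0 : 0 < p) (hp1 : p < 1) (hq : 0 < q) (F : Finset Edg) :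
    0 < wD D p q F := by
  have : 0 < 1 - p := by linarith
  unfold wD
  positivity

theorem ZD_pos (D : Dm) {p q : ℝ} (hp0 : 0 < p) (hp1 : p < 1) (hq : 0 < q) : 0 < ZD D p q :=
  Finset.sum_pos (fun F _ => wD_pos D hp0 hp1 hq F) ⟨∅, empty_mem_powerset _⟩

theorem condIn_wD (D : Dm) {p q : ℝ} (hp0 : 0 < p) (hp1 : p < 1) (hq : 0 < q)
    (hs : |p - 1/2| + |q - 1| ≤ 1/8) :
    CondIn (1/2 - 2 * (|p - 1/2| + |q - 1|)) (1/2 + 2 * (|p - 1/2| + |q - 1|)) (fre D)
      (wD D p q) := by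
  have hp : 0 < 1 - p := by linarith
  refine ⟨fun F _ => wD_pos D hp0 hp1 hq F, fun e he F hF heF => ?_⟩
  obtain ⟨u, hu⟩ : ∃ u, u = |p - 1/2| := ⟨_, rfl⟩
  obtain ⟨v, hv⟩ : ∃ v, v = |q - 1| := ⟨_, rfl⟩
  have u1 := abs_le.mp hu.ge
  have v1 := abs_le.mp hv.ge
  have u0 : 0 ≤ u := hu ▸ abs_nonneg _
  have v0 : 0 ≤ v := hv ▸ abs_nonneg _
  rw [← hu, ← hv] at hs ⊢
  have hk := kD_insert D (fre_sub D he) F
  unfold wD
  rw [card_insert_of_notMem heF]
  set c := (p / (1 - p)) ^ F.card with hc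
  have c0 : 0 < c := by positivity
  obtain ⟨A, hA⟩ : ∃ A, A = c * q ^ kD D (insert e F) / (1 - p) := ⟨_, rfl⟩
  have A0 : 0 < A := by rw [hA]; positivity
  have e1 : (p / (1 - p)) ^ (F.card + 1) * q ^ kD D (insert e F) = p * A := by
    rw [pow_succ, hA, hc]; field_simp
  rw [e1]
  rcases hk with hk | hk
  · have e2 : c * q ^ kD D F = (1 - p) * A := by
      rw [hk, hA]; field_simp
    rw [e2]
    constructor
    · nlinarith
    · nlinarith
  · have e2 : c * q ^ kD D F = q * (1 - p) * A := by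
      rw [hk, hA, pow_succ]; field_simp
    rw [e2]
    have d1 : 7/8 ≤ p + q * (1 - p) := by nlinarith
    have d2 : -v ≤ p + q * (1 - p) - 1 := by nlinarith
    have d3 : p + q * (1 - p) - 1 ≤ v := by nlinarith
    obtain ⟨d, hd⟩ : ∃ d, d = p + q * (1 - p) := ⟨_, rfl⟩
    rw [← hd] at d1 d2 d3
    have e3 : p * A + q * (1 - p) * A = d * A := by rw [hd]; ring
    rw [e3]
    constructor
    · rw [← mul_assoc]
      apply mul_le_mul_of_nonneg_right _ A0.le
      nlinarith [mul_le_mul_of_nonneg_left d1 (by linarith : 0 ≤ 2 * (u + v))]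
    · rw [← mul_assoc]
      apply mul_le_mul_of_nonneg_right _ A0.le
      nlinarith [mul_le_mul_of_nonneg_left d1 (by linarith : 0 ≤ 2 * (u + v))]

/-! ### the laws -/

/-- The law of (curve, time) for the random cluster measure with the parameters `p`, `q`. -/
noncomputable def fkM (R : Rect) (δ p q : ℝ) : Measure X :=
  ∑ F ∈ (fre (R.dm δ)).powerset, ENNReal.ofReal (wD (R.dm δ) p q F / ZD (R.dm δ) p q) •
    Measure.dirac (R.curve δ F, R.time δ F)

theorem fkM_apply (R : Rect) (δ : ℝ) {p q : ℝ} (hp0 : 0 < p) (hp1 : p < 1)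
    (hq : 0 < q) {G : Set X} (hG : MeasurableSet G) :
    fkM R δ p q G = ENNReal.ofReal
      ((∑ F ∈ (fre (R.dm δ)).powerset, wD (R.dm δ) p q F *
        ind ((R.curve δ F, R.time δ F) ∈ G)) / ZD (R.dm δ) p q) := by
  classical
  have hZ := ZD_pos (R.dm δ) hp0 hp1 hq
  unfold fkM
  rw [Measure.finsetSum_apply, Finset.sum_div, ENNReal.ofReal_sum_of_nonneg
    (fun F _ => by
      have := wD_pos (R.dm δ) hp0 hp1 hq F
      have := ind_nonneg ((R.curve δ F, R.time δ F) ∈ G)
      positivity)]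
  apply Finset.sum_congr rfl
  intro F _
  rw [Measure.smul_apply, Measure.dirac_apply' _ hG, smul_eq_mul]
  by_cases h : (R.curve δ F, R.time δ F) ∈ G
  · rw [ind_of h, Set.indicator_of_mem h]; simp
  · rw [ind_not_of h, Set.indicator_of_notMem h]; simp

theorem fkM_univ (R : Rect) (δ : ℝ) {p q : ℝ} (hp0 : 0 < p) (hp1 : p < 1)
    (hq : 0 < q) : fkM R δ p q Set.univ = 1 := by
  have hZ := ZD_pos (R.dm δ) hp0 hp1 hq
  rw [fkM_apply R δ hp0 hp1 hq MeasurableSet.univ]
  have : ∑ F ∈ (fre (R.dm δ)).powerset, wD (R.dm δ) p q F *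
      ind ((R.curve δ F, R.time δ F) ∈ (Set.univ : Set X)) = ZD (R.dm δ) p q :=
    Finset.sum_congr rfl fun F _ => by rw [ind_of (Set.mem_univ _), mul_one]
  rw [this, div_self hZ.ne', ENNReal.ofReal_one]

/-- The law of the interface of the random cluster model with its natural time. -/
noncomputable def fk (R : Rect) (δ : ℝ) {p q : ℝ} (hp0 : 0 < p) (hp1 : p < 1)
    (hq : 0 < q) : ProbabilityMeasure X :=
  ⟨fkM R δ p q, ⟨fkM_univ R δ hp0 hp1 hq⟩⟩

theorem ex_half_sum (S : Finset Edg) (a : Finset Edg → ℝ) :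
    Ex (fun _ : Edg => (1/2:ℝ)) S a = (1/2) ^ S.card * ∑ F ∈ S.powerset, a F := Ex_half S a

theorem fk_real (R : Rect) (δ : ℝ) {p q : ℝ} (hp0 : 0 < p) (hp1 : p < 1)
    (hq : 0 < q) {G : Set X} (hG : MeasurableSet G) :
    (fk R δ hp0 hp1 hq : Measure X).real G =
      Ex (fun _ : Edg => (1/2:ℝ)) (fre (R.dm δ)) (fun F => wD (R.dm δ) p q F *
        ind ((R.curve δ F, R.time δ F) ∈ G)) /
      Ex (fun _ : Edg => (1/2:ℝ)) (fre (R.dm δ)) (wD (R.dm δ) p q) := by
  have hZ := ZD_pos (R.dm δ) hp0 hp1 hq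
  show ((fkM R δ p q) G).toReal = _
  rw [fkM_apply R δ hp0 hp1 hq hG, ENNReal.toReal_ofReal, ex_half_sum, ex_half_sum,
    mul_div_mul_left _ _ (by positivity)]
  · rfl
  apply div_nonneg _ hZ.le
  exact Finset.sum_nonneg fun F _ => mul_nonneg (wD_pos _ hp0 hp1 hq F).le (ind_nonneg _)

theorem law_real (R : Rect) (δ : ℝ) {G : Set X} (hG : MeasurableSet G) :
    (R.law δ : Measure X).real G = Pr (fun _ : Edg => (1/2:ℝ)) (R.dm δ).edges
      (fun F => (R.curve δ F, R.time δ F) ∈ G) := by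
  show ((R.lawM δ) G).toReal = _
  rw [R.lawM_apply δ hG, ENNReal.toReal_ofReal]
  · rfl
  · exact Pr_nonneg ok_half _ _

/-- at `q = 1` the law is the one of percolation with density `p` -/
theorem fk_real_one (R : Rect) (δ : ℝ) {p : ℝ} (hp0 : 0 < p) (hp1 : p < 1)
    {G : Set X} (hG : MeasurableSet G) :
    (fk R δ hp0 hp1 one_pos : Measure X).real G = Pr (fun _ : Edg => p) (fre (R.dm δ))
      (fun F => (R.curve δ F, R.time δ F) ∈ G) := by
  have hp : 0 < 1 - p := by linarith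
  have hZ := ZD_pos (R.dm δ) hp0 hp1 one_pos
  have key : ∀ a : Finset Edg → ℝ, Ex (fun _ : Edg => p) (fre (R.dm δ)) a =
      (1 - p) ^ (fre (R.dm δ)).card *
        ∑ F ∈ (fre (R.dm δ)).powerset, wD (R.dm δ) p 1 F * a F := by
    intro a
    unfold Ex
    rw [Finset.mul_sum]
    apply Finset.sum_congr rfl
    intro F hF
    rw [mem_powerset] at hF
    rw [prod_const, prod_const, card_sdiff_of_subset hF]
    have h1 := card_le_card hF
    unfold wD
    rw [one_pow, mul_one, div_pow]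
    have h2 : (1 - p) ^ (fre (R.dm δ)).card =
        (1 - p) ^ ((fre (R.dm δ)).card - F.card) * (1 - p) ^ F.card := by
      rw [← pow_add]
      congr 1
      omega
    rw [h2]
    field_simp
  have h1 := key (fun _ => 1)
  rw [Ex_const] at h1
  simp only [mul_one] at h1
  have h2 : 1 = (1 - p) ^ (fre (R.dm δ)).card * ZD (R.dm δ) p 1 := h1
  show ((fkM R δ p 1) G).toReal = _
  rw [fkM_apply R δ hp0 hp1 one_pos hG, ENNReal.toReal_ofReal]
  · unfold Pr
    rw [key, div_eq_iff hZ.ne', mul_comm, ← mul_assoc, mul_comm (ZD _ _ _), ← h2, one_mul]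
  · apply div_nonneg _ hZ.le
    exact Finset.sum_nonneg fun F _ => mul_nonneg (wD_pos _ hp0 hp1 one_pos F).le (ind_nonneg _)

end Pool.Agent.K9h80.TV
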