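import Pool.Agent.K9h80.TV.Main

/-!
# The lower bound for the interface of percolation
-/

set_option autoImplicit false

namespace Pool.Agent.K9h80.TV

open H974 H973 Finset H342P H984P H984N MeasureTheory Filter Topology Pool.Agent.K9h80.WN

/-! ### the path is a function of the curve and its time -/

theorem pos_inj {δ : ℝ} (hδ : 0 < δ) {σ τ : St} (h : pos δ σ = pos δ τ) : σ = τ := by
  have h1 := congrArg Complex.re h
  have h2 := congrArg Complex.im h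
  rw [ML.pos_re, ML.pos_re] at h1
  rw [ML.pos_im, ML.pos_im] at h2
  have h3 := mul_left_cancel₀ hδ.ne' h1
  have h4 := mul_left_cancel₀ hδ.ne' h2
  obtain ⟨⟨x, y⟩, q⟩ := σ
  obtain ⟨⟨x', y'⟩, q'⟩ := τ
  simp only at h3 h4
  have e1 : 4 * (x:ℝ) + 4 * ML.qx q = 4 * x' + 4 * ML.qx q' := by linarith
  have e2 : 4 * (y:ℝ) + 4 * ML.qy q = 4 * y' + 4 * ML.qy q' := by linarith
  have key : ∀ a b : ℤ, ∀ u v : ℤ, (u = 1 ∨ u = -1) → (v = 1 ∨ v = -1) →
      4 * (a:ℝ) + (u:ℝ) = 4 * (b:ℝ) + (v:ℝ) → a = b ∧ u = v := by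
    intro a b u v hu hv hh
    have h5 : 4 * a + u = 4 * b + v := by exact_mod_cast hh
    omega
  have qx' : ∀ q : Q4, ∃ u : ℤ, (u = 1 ∨ u = -1) ∧ 4 * ML.qx q = (u:ℝ) := by
    intro q
    cases q
    · exact ⟨1, Or.inl rfl, by norm_num [ML.qx]⟩
    · exact ⟨-1, Or.inr rfl, by norm_num [ML.qx]⟩
    · exact ⟨-1, Or.inr rfl, by norm_num [ML.qx]⟩
    · exact ⟨1, Or.inl rfl, by norm_num [ML.qx]⟩
  have qy' : ∀ q : Q4, ∃ u : ℤ, (u = 1 ∨ u = -1) ∧ 4 * ML.qy q = (u:ℝ) := by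
    intro q
    cases q
    · exact ⟨1, Or.inl rfl, by norm_num [ML.qy]⟩
    · exact ⟨1, Or.inl rfl, by norm_num [ML.qy]⟩
    · exact ⟨-1, Or.inr rfl, by norm_num [ML.qy]⟩
    · exact ⟨-1, Or.inr rfl, by norm_num [ML.qy]⟩
  obtain ⟨u1, hu1, hu1e⟩ := qx' q
  obtain ⟨v1, hv1, hv1e⟩ := qx' q'
  obtain ⟨u2, hu2, hu2e⟩ := qy' q
  obtain ⟨v2, hv2, hv2e⟩ := qy' q'
  have k1 := key x x' u1 v1 hu1 hv1 (by rw [← hu1e, ← hv1e]; exact e1)
  have k2 := key y y' u2 v2 hu2 hv2 (by rw [← hu2e, ← hv2e]; exact e2)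
  have f1 : ML.qx q = ML.qx q' := by
    have : (u1:ℝ) = v1 := by exact_mod_cast k1.2
    linarith
  have f2 : ML.qy q = ML.qy q' := by
    have : (u2:ℝ) = v2 := by exact_mod_cast k2.2
    linarith
  rw [k1.1, k2.1]
  congr 1
  cases q <;> cases q' <;> first
    | rfl
    | (exfalso; norm_num [ML.qx] at f1; done)
    | (exfalso; norm_num [ML.qy] at f2)

theorem pl_node {N : ℕ} {p p' : ℕ → ℂ} (h : pl N p = pl N p') : ∀ k ≤ N, p k = p' k := by
  intro k hk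
  rcases Nat.eq_zero_or_pos N with hN | hN
  · have : k = 0 := by omega
    subst this
    have h1 := congrArg (fun f => f 0) h
    beta_reduce at h1
    rwa [pl_zero, pl_zero] at h1
  · rcases lt_or_eq_of_le hk with hk | rfl
    · have hN0 : (0:ℝ) < N := by exact_mod_cast hN
      have hs : (k:ℝ) / N ∈ unitInterval := by
        constructor
        · positivity
        · rw [div_le_one hN0]; exact_mod_cast hk.le
      have e : ((⟨(k:ℝ) / N, hs⟩ : unitInterval) : ℝ) * N = k := by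
        show (k:ℝ) / N * N = k
        field_simp
      have h1 := congrArg (fun f => f ⟨(k:ℝ) / N, hs⟩) h
      beta_reduce at h1
      rw [pl_seg hk (by rw [e]) (by rw [e]; linarith), pl_seg hk (by rw [e])
        (by rw [e]; linarith), e] at h1
      simpa using h1
    · have h1 := congrArg (fun f => f 1) h
      beta_reduce at h1
      rwa [pl_one, pl_one] at h1

theorem mv_ne_rt (σ : St) : mv σ ≠ rt σ := by
  obtain ⟨⟨x, y⟩, q⟩ := σ
  cases q <;> simp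

theorem agree_of {R : Rect} {δ : ℝ} (hδ : 0 < δ) {F G : Finset Edg}
    (h : (R.curve δ F, R.time δ F) = (R.curve δ G, R.time δ G)) :
    F ∩ exd (R.dm δ) G = G ∩ exd (R.dm δ) G := by
  rw [Prod.mk.injEq] at h
  obtain ⟨h1, h2⟩ := h
  have hlen : (R.dm δ).len F = (R.dm δ).len G := by
    unfold H984N.Rect.time at h2
    have := mul_left_cancel₀ (Real.rpow_pos_of_pos hδ _).ne' h2
    exact_mod_cast this
  unfold H984N.Rect.curve at h1
  rw [hlen] at h1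
  have hw : ∀ k ≤ (R.dm δ).len G, (R.dm δ).walk F k = (R.dm δ).walk G k := fun k hk =>
    pos_inj hδ (pl_node h1 k hk)
  ext e
  rw [mem_inter, mem_inter]
  refine and_congr_left fun he => ?_
  obtain ⟨⟨k, hk, hke⟩, hf⟩ := mem_exd.1 he
  have h3 := hw (k + 1) hk
  rw [H984N.walk_succ, H984N.walk_succ, hw k hk.le] at h3
  have hwir : e ∉ (R.dm δ).wir := (mem_fre.1 hf).2
  have hiff : ∀ H : Finset Edg, e ∈ (R.dm δ).cfg H ↔ e ∈ H := by
    intro H
    unfold Dm.cfg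
    rw [Set.mem_union, mem_coe]
    tauto
  by_cases c1 : e ∈ F
  · by_cases c2 : e ∈ G
    · exact ⟨fun _ => c2, fun _ => c1⟩
    · exfalso
      rw [nxt_open (by rw [hke]; exact (hiff F).2 c1),
        nxt_closed (by rw [hke]; exact fun h => c2 ((hiff G).1 h))] at h3
      exact mv_ne_rt _ h3
  · by_cases c2 : e ∈ G
    · exfalso
      rw [nxt_closed (by rw [hke]; exact fun h => c1 ((hiff F).1 h)),
        nxt_open (by rw [hke]; exact (hiff G).2 c2)] at h3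
      exact mv_ne_rt _ h3.symm
    · exact ⟨fun h => absurd h c1, fun h => absurd h c2⟩

/-- the choice of the number of steps -/
theorem choose_m {l d c : ℝ} (hl0 : 0 < l) (hl : l ≤ 1/2) (hd : 0 < d) (hc : 0 < c)
    (hcd : 1 ≤ c * d ^ 2) : ∃ m : ℕ, 1 ≤ m ∧ l ^ 2 * m ≤ 1/4 ∧ (m:ℝ) ≤ c * d ^ 2 ∧
      Real.sqrt (min (1/8) (c/2)) * min 1 (l * d) ≤ l * Real.sqrt m := by
  obtain ⟨M, hM⟩ : ∃ M, M = min (1 / (4 * l ^ 2)) (c * d ^ 2) := ⟨_, rfl⟩
  have hl2 : 0 < l ^ 2 := by positivity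
  have h1 : 1 ≤ 1 / (4 * l ^ 2) := by
    rw [le_div_iff₀ (by positivity)]
    nlinarith
  have hM1 : 1 ≤ M := by rw [hM]; exact le_min h1 hcd
  have hMa : M ≤ 1 / (4 * l ^ 2) := hM ▸ min_le_left _ _
  have hMb : M ≤ c * d ^ 2 := hM ▸ min_le_right _ _
  obtain ⟨m, hm⟩ : ∃ m : ℕ, m = ⌊M⌋₊ := ⟨_, rfl⟩
  have hm1 : (m:ℝ) ≤ M := hm ▸ Nat.floor_le (by linarith)
  have hm2 : M < m + 1 := hm ▸ Nat.lt_floor_add_one M
  have hm3 : 1 ≤ m := by
    rw [hm]; exact Nat.le_floor (by simpa using hM1)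
  have hm3' : (1:ℝ) ≤ m := by exact_mod_cast hm3
  have hm4 : M / 2 ≤ m := by linarith
  refine ⟨m, hm3, ?_, hm1.trans hMb, ?_⟩
  · have : l ^ 2 * m ≤ l ^ 2 * (1 / (4 * l ^ 2)) :=
      mul_le_mul_of_nonneg_left (hm1.trans hMa) hl2.le
    refine this.trans (le_of_eq ?_)
    field_simp
  · have hk0 : 0 < min (1/8) (c/2) := lt_min (by norm_num) (by positivity)
    obtain ⟨k, hk⟩ : ∃ k, k = min (1/8) (c/2) := ⟨_, rfl⟩
    obtain ⟨y, hy⟩ : ∃ y, y = min 1 (l * d) := ⟨_, rfl⟩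
    have hy0 : 0 < y := by rw [hy]; exact lt_min one_pos (by positivity)
    have hy1 : y ≤ 1 := hy ▸ min_le_left _ _
    have hy2 : y ≤ l * d := hy ▸ min_le_right _ _
    rw [← hk] at hk0
    rw [← hk, ← hy]
    have hka : k ≤ 1/8 := hk ▸ min_le_left _ _
    have hkb : k ≤ c/2 := hk ▸ min_le_right _ _
    have hyy : y ^ 2 ≤ 1 := by nlinarith
    have hyd : y ^ 2 ≤ (l * d) ^ 2 := pow_le_pow_left₀ hy0.le hy2 2
    have key : k * y ^ 2 ≤ l ^ 2 * m := by
      refine le_trans ?_ (mul_le_mul_of_nonneg_left hm4 hl2.le)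
      rcases min_choice (1 / (4 * l ^ 2)) (c * d ^ 2) with h | h
      · rw [hM, h]
        have : l ^ 2 * (1 / (4 * l ^ 2) / 2) = 1/8 := by field_simp; norm_num
        rw [this]
        nlinarith
      · rw [hM, h]
        have e1 : l ^ 2 * (c * d ^ 2 / 2) = c/2 * (l * d) ^ 2 := by ring
        rw [e1]
        exact mul_le_mul hkb hyd (by positivity) (by positivity)
    have h5 : (Real.sqrt k * y) ^ 2 ≤ (l * Real.sqrt m) ^ 2 := by
      rw [mul_pow, mul_pow, Real.sq_sqrt hk0.le, Real.sq_sqrt (by positivity)]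
      exact key
    exact (pow_le_pow_iff_left₀ (by positivity) (by positivity) (by norm_num)).1 h5

/-- **The lower bound.** -/
theorem lower (R : Rect) : ∃ c : ℝ, 0 < c ∧ ∃ δ0 : ℝ, 0 < δ0 ∧ ∀ δ : ℝ, 0 < δ → δ ≤ δ0 →
    ∀ (p : ℝ) (hp0 : 0 < p) (hp1 : p < 1), ∃ G : Set X, MeasurableSet G ∧
      c * min 1 (|p - 1/2| * δ ^ (-(7/8 : ℝ))) ≤
        |(fk R δ hp0 hp1 one_pos : Measure X).real G - (R.law δ : Measure X).real G| := by
  obtain ⟨-, hT, -⟩ := Pool.Agent.Results.MP_fe58d8_pr.NaturalCurve.result R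
  have hη : 0 < 1 / (4 * Real.exp 7) := by positivity
  obtain ⟨Λ, δ1, hΛ, hδ1, hprob⟩ := hT (1/2) (1 / (4 * Real.exp 7)) (by norm_num) (by norm_num) hη
  obtain ⟨κ, S, δ2, hκ, hS, hδ2, hδ21, hsh⟩ := R.shape
  obtain ⟨c, hc⟩ : ∃ c, c = 1 / (8 * Λ) := ⟨_, rfl⟩
  have hc0 : 0 < c := by rw [hc]; positivity
  -- the small mesh
  have hlim : Tendsto (fun δ : ℝ => 16 * (S + 1) * δ ^ (3/4 : ℝ)) (𝓝[>] 0) (𝓝 0) := by
    have h1 : Tendsto (fun δ : ℝ => δ ^ (3/4 : ℝ)) (𝓝[>] 0) (𝓝 0) := by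
      have h2 := (Real.continuousAt_rpow_const 0 (3/4 : ℝ) (Or.inr (by norm_num))).tendsto
      rw [Real.zero_rpow (by norm_num)] at h2
      exact h2.mono_left nhdsWithin_le_nhds
    simpa using h1.const_mul (16 * (S + 1))
  have hlim2 : Tendsto (fun δ : ℝ => δ ^ (7/4 : ℝ)) (𝓝[>] 0) (𝓝 0) := by
    have h2 := (Real.continuousAt_rpow_const 0 (7/4 : ℝ) (Or.inr (by norm_num))).tendsto
    rw [Real.zero_rpow (by norm_num)] at h2
    exact h2.mono_left nhdsWithin_le_nhds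
  have hev := (hlim.eventually_lt_const (show 0 < 1 / (4 * Λ) by positivity)).and
    (hlim2.eventually_lt_const hc0)
  obtain ⟨δ3, hδ3, hδ3'⟩ := mem_nhdsGT_iff_exists_Ioo_subset.1 hev
  rw [Set.mem_Ioi] at hδ3
  have hcB := cB_pos
  have hkk : 0 < Real.sqrt (min (1/8) (c/2)) :=
    Real.sqrt_pos.mpr (lt_min (by norm_num) (by positivity))
  refine ⟨Real.sqrt (min (1/8) (c/2)) / (2 * cB), by positivity,
    min (min δ1 δ2) (δ3 / 2), by positivity, ?_⟩
  intro δ hδ hle p hp0 hp1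
  simp only [le_min_iff] at hle
  obtain ⟨⟨l1, l2⟩, l3⟩ := hle
  obtain ⟨s1, s2⟩ : 16 * (S + 1) * δ ^ (3/4 : ℝ) < 1 / (4 * Λ) ∧ δ ^ (7/4 : ℝ) < c :=
    hδ3' ⟨hδ, by linarith⟩
  obtain ⟨d, hdd⟩ : ∃ d, d = δ ^ (-(7/8 : ℝ)) := ⟨_, rfl⟩
  have hd0 : 0 < d := by rw [hdd]; positivity
  have hd2 : d ^ 2 = (δ ^ (7/4 : ℝ))⁻¹ := by
    rw [hdd, ← Real.rpow_natCast, ← Real.rpow_mul hδ.le, ← Real.rpow_neg hδ.le]
    norm_num
  rw [← hdd]
  have hshp := hsh δ hδ l2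
  have hD := hshp.ok
  have hδ74 : 0 < δ ^ (7/4 : ℝ) := by positivity
  obtain ⟨l, hl⟩ : ∃ l, l = |p - 1/2| := ⟨_, rfl⟩
  have hl2 : l ≤ 1/2 := by rw [hl, abs_le]; constructor <;> linarith
  rw [← hl]
  rcases (abs_nonneg (p - 1/2)).eq_or_lt with h0 | h0
  · refine ⟨∅, MeasurableSet.empty, ?_⟩
    rw [hl, ← h0]
    simp
  rw [← hl] at h0
  obtain ⟨s, hs, hps⟩ : ∃ s : ℝ, (s = 1 ∨ s = -1) ∧ p = 1/2 + s * l := by
    rcases le_total 0 (p - 1/2) with h | h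
    · exact ⟨1, Or.inl rfl, by rw [hl, abs_of_nonneg h]; ring⟩
    · exact ⟨-1, Or.inr rfl, by rw [hl, abs_of_nonpos h]; ring⟩
  have hcd : 1 ≤ c * d ^ 2 := by
    rw [hd2, ← div_eq_mul_inv, one_le_div hδ74]
    exact s2.le
  obtain ⟨m, hm1, hm2, hm3, hm4⟩ := choose_m h0 hl2 hd0 hc0 hcd
  -- few examined edges are unlikely
  have hP : Pr (fun _ : Edg => (1/2:ℝ)) (fre (R.dm δ))
      (fun F => (exd (R.dm δ) F).card < m) ≤ 1 / (4 * Real.exp 7) := by
    have e1 : Pr (fun _ : Edg => (1/2:ℝ)) (fre (R.dm δ))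
        (fun F => (exd (R.dm δ) F).card < m) =
        Pr (fun _ : Edg => (1/2:ℝ)) (R.dm δ).edges (fun F => (exd (R.dm δ) F).card < m) := by
      symm
      apply Pr_local (fre_sub _)
      intro F hF
      rw [exd_fre hF]
    rw [e1]
    have h1 := hprob δ hδ l1
    unfold H984N.Rect.prob H984N.P at h1
    set B : Finset Edg → Prop := fun F => (1 / Λ ≤ R.time δ F ∧ R.time δ F ≤ Λ) ∧
        ∀ s t : unitInterval, dist (R.curve δ F s) (R.curve δ F t) ≤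
          Λ * |(s : ℝ) - t| ^ (1/2 : ℝ) with hB
    have h2 : Pr (fun _ : Edg => (1/2:ℝ)) (R.dm δ).edges
        (fun F => (exd (R.dm δ) F).card < m) ≤
        Pr (fun _ : Edg => (1/2:ℝ)) (R.dm δ).edges (fun F => ¬ B F) := by
      apply Pr_mono ok_half
      intro F hF hcard hBF
      have h3 := hBF.1.1
      have h4 := len_le_exd hD hF
      have h5 := bst_card hD
      have h6 : ((R.dm δ).len F : ℝ) ≤ 2 * (exd (R.dm δ) F).card + (bst (R.dm δ)).card := by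
        exact_mod_cast h4
      have h7 : ((exd (R.dm δ) F).card : ℝ) ≤ m := by exact_mod_cast hcard.le
      have h8 := hshp.w_le
      have h9 := hshp.h_le
      push_cast at h8
      have hlenb : ((R.dm δ).len F : ℝ) ≤ 2 * (c * d ^ 2) + 16 * (S / δ + 1) := by linarith
      have ht : R.time δ F ≤ 2 * c + 16 * (S + 1) * δ ^ (3/4 : ℝ) := by
        unfold H984N.Rect.time
        refine (mul_le_mul_of_nonneg_left hlenb hδ74.le).trans ?_
        have e2 : δ ^ (7/4 : ℝ) * (2 * (c * d ^ 2)) = 2 * c := by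
          rw [hd2]; field_simp
        have e3 : δ ^ (7/4 : ℝ) = δ ^ (3/4 : ℝ) * δ := by
          rw [← Real.rpow_add_one hδ.ne']; norm_num
        have e4 : δ ^ (7/4 : ℝ) * (16 * (S / δ + 1)) = 16 * (S + δ) * δ ^ (3/4 : ℝ) := by
          rw [e3]; field_simp
        rw [mul_add, e2, e4]
        have hδ1' : δ ≤ 1 := l2.trans hδ21
        have : 0 < δ ^ (3/4 : ℝ) := by positivity
        nlinarith
      have h10 : 2 * c = 1 / (4 * Λ) := by rw [hc]; field_simp; norm_num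
      have h11 : 1 / (4 * Λ) + 1 / (4 * Λ) < 1 / Λ := by
        have : 1 / Λ = 4 * (1 / (4 * Λ)) := by field_simp
        have h12 : 0 < 1 / (4 * Λ) := by positivity
        linarith
      linarith
    refine h2.trans ?_
    rw [Pr_not]
    linarith
  obtain ⟨A, hA, hAge⟩ := tv_ge (expl hD) h0 hl2 hs hm1 hm2 hP
  -- the event in terms of the curve
  obtain ⟨G, hGd⟩ : ∃ G : Set X, G = {x | ∃ F ⊆ fre (R.dm δ), A F ∧
      (R.curve δ F, R.time δ F) = x} := ⟨_, rfl⟩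
  have hGfin : G.Finite := by
    rw [hGd]
    apply Set.Finite.subset (((fre (R.dm δ)).powerset.finite_toSet).image
      (fun F => (R.curve δ F, R.time δ F)))
    rintro x ⟨F, hF, -, rfl⟩
    exact ⟨F, by rw [mem_coe, mem_powerset]; exact hF, rfl⟩
  have hmem : ∀ F, F ⊆ fre (R.dm δ) → ((R.curve δ F, R.time δ F) ∈ G ↔ A F) := by
    intro F hF
    rw [hGd]
    constructor
    · rintro ⟨F', hF', hAF', he⟩
      exact (hA F' hF' F hF (agree_of hδ he)).1 hAF'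
    · intro h
      exact ⟨F, hF, h, rfl⟩
  refine ⟨G, hGfin.measurableSet, ?_⟩
  rw [fk_real_one R δ hp0 hp1 hGfin.measurableSet, law_real' R δ hGfin.measurableSet,
    Pr_congr hmem, Pr_congr hmem]
  refine le_trans ?_ (le_abs_self _)
  rw [hps]
  refine le_trans ?_ hAge
  rw [div_mul_eq_mul_div]
  gcongr

end Pool.Agent.K9h80.TV
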