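import Pool.Agent.K9h80.TV.Fk

/-!
# Both bounds for the interface
-/

set_option autoImplicit false

namespace Pool.Agent.K9h80.TV

open H974 H973 Finset H342P H984P H984N MeasureTheory Filter Topology Pool.Agent.K9h80.WN

/-! ### dependence on the free edges -/

theorem cfg_fre {D : Dm} {F : Finset Edg} (hF : F ⊆ D.edges) : D.cfg (F ∩ fre D) = D.cfg F := by
  unfold Dm.cfg
  ext e
  simp only [Set.mem_union, Finset.mem_coe, Finset.mem_inter, mem_fre]
  constructor
  · rintro (h | h)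
    · exact Or.inl h.1
    · exact Or.inr h
  · rintro (h | h)
    · by_cases hw : e ∈ D.wir
      · exact Or.inr hw
      · exact Or.inl ⟨h, hF h, hw⟩
    · exact Or.inr h

theorem walk_fre {D : Dm} {F : Finset Edg} (hF : F ⊆ D.edges) :
    D.walk (F ∩ fre D) = D.walk F := by
  funext k
  unfold Dm.walk
  rw [cfg_fre hF]

theorem len_fre {D : Dm} {F : Finset Edg} (hF : F ⊆ D.edges) :
    D.len (F ∩ fre D) = D.len F := by
  unfold Dm.len
  rw [walk_fre hF]

theorem exd_fre {D : Dm} {F : Finset Edg} (hF : F ⊆ D.edges) :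
    exd D (F ∩ fre D) = exd D F := by
  unfold exd
  rw [walk_fre hF, len_fre hF]

theorem curve_fre {R : Rect} {δ : ℝ} {F : Finset Edg} (hF : F ⊆ (R.dm δ).edges) :
    R.curve δ (F ∩ fre (R.dm δ)) = R.curve δ F := by
  unfold H984N.Rect.curve
  rw [walk_fre hF, len_fre hF]

theorem time_fre {R : Rect} {δ : ℝ} {F : Finset Edg} (hF : F ⊆ (R.dm δ).edges) :
    R.time δ (F ∩ fre (R.dm δ)) = R.time δ F := by
  unfold H984N.Rect.time
  rw [len_fre hF]

theorem law_real' (R : Rect) (δ : ℝ) {G : Set X} (hG : MeasurableSet G) :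
    (R.law δ : Measure X).real G = Pr (fun _ : Edg => (1/2:ℝ)) (fre (R.dm δ))
      (fun F => (R.curve δ F, R.time δ F) ∈ G) := by
  rw [law_real R δ hG]
  apply Pr_local (fre_sub _)
  intro F hF
  rw [curve_fre hF, time_fre hF]

/-! ### the curve and its time are functions of the path -/

theorem curve_eq {R : Rect} {δ : ℝ} {F G : Finset Edg} (h1 : (R.dm δ).len F = (R.dm δ).len G)
    (h2 : ∀ k ≤ (R.dm δ).len G, (R.dm δ).walk F k = (R.dm δ).walk G k) :
    (R.curve δ F, R.time δ F) = (R.curve δ G, R.time δ G) := by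
  have e1 : R.curve δ F = R.curve δ G := by
    unfold H984N.Rect.curve
    rw [h1]
    ext s
    rw [pl_apply', pl_apply']
    rw [h2 0 (Nat.zero_le _)]
    congr 1
    apply Finset.sum_congr rfl
    intro k hk
    rw [mem_range] at hk
    rw [h2 k hk.le, h2 (k + 1) hk]
  have e2 : R.time δ F = R.time δ G := by
    unfold H984N.Rect.time
    rw [h1]
  rw [e1, e2]

theorem loc_ind {R : Rect} {δ : ℝ} (hD : (R.dm δ).Ok) (G : Set X) :
    Loc (fre (R.dm δ)) (exd (R.dm δ))
      (fun F => ind ((R.curve δ F, R.time δ F) ∈ G)) := by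
  intro F hF F' hF' h
  obtain ⟨h1, h2⟩ := same_of hD hF hF' h
  beta_reduce
  rw [curve_eq h1 h2]

/-- **The upper bound.** -/
theorem upper (R : Rect) : ∃ C : ℝ, 0 < C ∧ ∃ δ0 : ℝ, 0 < δ0 ∧ ∀ δ : ℝ, 0 < δ → δ ≤ δ0 →
    ∀ (p q : ℝ) (hp0 : 0 < p) (hp1 : p < 1) (hq : 0 < q) (G : Set X), MeasurableSet G →
      |(fk R δ hp0 hp1 hq : Measure X).real G - (R.law δ : Measure X).real G| ≤
        C * (|p - 1/2| + |q - 1|) * δ ^ (-(7/8 : ℝ)) := by
  obtain ⟨-, ⟨C1, hC1, hU⟩, -⟩ := Pool.Agent.Results.MP_fe58d8_pr.NaturalCurve.inputs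
  obtain ⟨C', hC', hlen⟩ := len_moment hC1 hU
  obtain ⟨κ, S, δ0, hκ, hS, hδ0, hδ01, hsh⟩ := R.shape
  refine ⟨2 + 6 * (C' * S ^ (7/4 : ℝ)) + 8, by positivity, δ0, hδ0, ?_⟩
  intro δ hδ hle p q hp0 hp1 hq G hG
  have hshp := hsh δ hδ hle
  have hD := hshp.ok
  obtain ⟨s, hs⟩ : ∃ s, s = |p - 1/2| + |q - 1| := ⟨_, rfl⟩
  have hs0 : 0 ≤ s := by rw [hs]; positivity
  have hd : 1 ≤ δ ^ (-(7/8 : ℝ)) :=
    Real.one_le_rpow_of_pos_of_le_one_of_nonpos hδ (hle.trans hδ01) (by norm_num)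
  obtain ⟨d, hdd⟩ : ∃ d, d = δ ^ (-(7/8 : ℝ)) := ⟨_, rfl⟩
  rw [← hs, ← hdd]
  rw [← hdd] at hd
  obtain ⟨K, hK⟩ : ∃ K, K = C' * S ^ (7/4 : ℝ) := ⟨_, rfl⟩
  have hK0 : 0 < K := by rw [hK]; positivity
  rw [← hK]
  by_cases hs8 : s ≤ 1/8
  · -- the mean number of examined edges
    have hn1 : 1 ≤ S / δ := by
      have h1 := hshp.w_le
      have h2 := hD.l_neg
      have h3 := hD.r_pos
      have h4 : (1:ℝ) ≤ (((R.dm δ).r - (R.dm δ).l : ℤ) : ℝ) := by
        exact_mod_cast (by omega : (1:ℤ) ≤ (R.dm δ).r - (R.dm δ).l)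
      linarith
    have h1 := hlen (R.dm δ) (S / δ) hD hn1 hshp.w_le hshp.h_le
    have h2 : Ex (fun _ : Edg => (1/2:ℝ)) (fre (R.dm δ))
        (fun F => ((exd (R.dm δ) F).card : ℝ)) ≤ K * d ^ 2 := by
      have e1 : Ex (fun _ : Edg => (1/2:ℝ)) (fre (R.dm δ))
          (fun F => ((exd (R.dm δ) F).card : ℝ)) =
          Ex (fun _ : Edg => (1/2:ℝ)) (R.dm δ).edges
          (fun F => ((exd (R.dm δ) F).card : ℝ)) := by
        symm
        apply Ex_local (fre_sub _)
        intro F hF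
        rw [exd_fre hF]
      rw [e1]
      have e2 : Ex (fun _ : Edg => (1/2:ℝ)) (R.dm δ).edges
          (fun F => ((exd (R.dm δ) F).card : ℝ)) ≤
          Ex (fun _ : Edg => (1/2:ℝ)) (R.dm δ).edges
          (fun F => ((R.dm δ).len F : ℝ) + 1) := by
        apply Ex_mono ok_half
        intro F _
        have : ((exd (R.dm δ) F).card : ℝ) ≤ (R.dm δ).len F := by
          exact_mod_cast exd_card_le (R.dm δ) F
        linarith
      refine e2.trans (h1.trans ?_)
      rw [hK, hdd, Real.div_rpow hS.le hδ.le, ← Real.rpow_natCast, ← Real.rpow_mul hδ.le,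
        div_eq_mul_inv, ← Real.rpow_neg hδ.le]
      apply le_of_eq
      rw [show (-(7/8 : ℝ)) * ((2 : ℕ) : ℝ) = -(7/4) by norm_num]
      ring
    have hC := condIn_wD (R.dm δ) hp0 hp1 hq (by rw [← hs]; exact hs8)
    rw [← hs] at hC
    have key : ∀ θ : ℝ, 0 < θ → |(fk R δ hp0 hp1 hq : Measure X).real G -
        (R.law δ : Measure X).real G| ≤ 2 * θ + 3 * (2 * s) ^ 2 * (K * d ^ 2) / (2 * θ) := by
      intro θ hθ
      rw [fk_real R δ hp0 hp1 hq hG, law_real' R δ hG]
      exact tv_le (expl hD) (by linarith) (by linarith) hC (loc_ind hD G)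
        (fun F => by rw [abs_of_nonneg (ind_nonneg _)]; exact ind_le_one _) h2 hθ
    rcases hs0.eq_or_lt with h0 | h0
    · -- `s = 0`
      rw [← h0] at key ⊢
      rw [mul_zero, zero_mul]
      apply le_of_forall_pos_le_add
      intro e he
      have := key (e / 2) (half_pos he)
      simp only [mul_zero, ne_eq, OfNat.ofNat_ne_zero, not_false_eq_true, zero_pow, zero_mul,
        zero_div, add_zero] at this
      linarith
    · have hsd : 0 < s * d := by positivity
      have := key (s * d) hsd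
      refine this.trans ?_
      have e3 : 3 * (2 * s) ^ 2 * (K * d ^ 2) / (2 * (s * d)) = 6 * K * (s * d) := by
        field_simp
        ring
      rw [e3]
      nlinarith
  · push Not at hs8
    have h1 : (fk R δ hp0 hp1 hq : Measure X).real G ≤ 1 := measureReal_le_one
    have h2 : (R.law δ : Measure X).real G ≤ 1 := measureReal_le_one
    have h3 : 0 ≤ (fk R δ hp0 hp1 hq : Measure X).real G := measureReal_nonneg
    have h4 : 0 ≤ (R.law δ : Measure X).real G := measureReal_nonneg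
    have h5 : 1 ≤ 8 * s * d := by nlinarith
    have h6 : 0 ≤ K * s * d := by positivity
    rw [abs_le]
    constructor <;> nlinarith

end Pool.Agent.K9h80.TV
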