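import Pool.Agent.K9h80.WN.Sand

/-!
# Explorations: the upper bound for the total variation distance

An exploration of the subsets of `S`: `q F` is the set of the elements which are revealed when the
configuration is `F`; they are revealed one after the other.
-/

set_option autoImplicit false

namespace Pool.Agent.K9h80.TV

open H974 Finset Pool.Agent.K9h80.WN

variable {E : Type*} [DecidableEq E]

/-- an exploration: `q F` is the set of the revealed elements -/
structure Expl (S : Finset E) (q : Finset E → Finset E) : Prop where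
  sub : ∀ F ⊆ S, q F ⊆ S
  loc : ∀ F ⊆ S, ∀ G ⊆ S, F ∩ q G = G ∩ q G → q F = q G
  seq : ∀ R ⊆ S, ∀ O ⊆ R, ¬ q O ⊆ R → ∃ e ∈ S, e ∉ R ∧ ∀ F ⊆ S, F ∩ R = O → e ∈ q F

/-- the function depends only on the revealed elements -/
def Loc {α : Type*} (S : Finset E) (q : Finset E → Finset E) (a : Finset E → α) : Prop :=
  ∀ F ⊆ S, ∀ G ⊆ S, F ∩ q G = G ∩ q G → a F = a G

theorem CondIn.zero {α β : ℝ} {e : E} {S : Finset E} {w : Finset E → ℝ}
    (hw : CondIn α β (insert e S) w) : CondIn α β S w :=
  ⟨fun F hF => hw.1 F (hF.trans (subset_insert _ _)), fun x hx F hF hxF =>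
    hw.2 x (mem_insert_of_mem hx) F (hF.trans (subset_insert _ _)) hxF⟩

theorem CondIn.one {α β : ℝ} {e : E} {S : Finset E} (he : e ∉ S) {w : Finset E → ℝ}
    (hw : CondIn α β (insert e S) w) : CondIn α β S (fun F => w (insert e F)) := by
  have hins : ∀ {F : Finset E}, F ⊆ S → insert e F ⊆ insert e S := fun hF =>
    insert_subset_insert _ hF
  refine ⟨fun F hF => hw.1 _ (hins hF), fun x hx F hF hxF => ?_⟩
  have hxe : x ≠ e := fun h => he (h ▸ hx)
  have := hw.2 x (mem_insert_of_mem hx) (insert e F) (hins hF) (by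
    rw [mem_insert, not_or]; exact ⟨hxe, hxF⟩)
  beta_reduce
  rw [Finset.insert_comm e x F]
  exact this

omit [DecidableEq E] in
theorem ok_half : Ok (fun _ : E => (1/2:ℝ)) := fun _ => ⟨by norm_num, by norm_num⟩

theorem ex_pos {S : Finset E} {f : Finset E → ℝ} (hf : ∀ F ⊆ S, 0 < f F) :
    0 < Ex (fun _ : E => (1/2:ℝ)) S f := by
  unfold Ex
  refine Finset.sum_pos (fun F hF => ?_) ⟨∅, empty_mem_powerset S⟩
  have := hf F (mem_powerset.mp hF)
  apply mul_pos _ this
  apply mul_pos
  · exact Finset.prod_pos fun _ _ => by norm_num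
  · exact Finset.prod_pos fun _ _ => by norm_num

/-- the mean over `e` -/
theorem ex_half_insert {e : E} {S : Finset E} (he : e ∉ S) (f : Finset E → ℝ) :
    Ex (fun _ : E => (1/2:ℝ)) (insert e S) f =
      (Ex (fun _ : E => (1/2:ℝ)) S (fun F => f (insert e F)) +
        Ex (fun _ : E => (1/2:ℝ)) S f) / 2 := by
  rw [Ex_insert _ he]
  ring

theorem ex_add_one (p : E → ℝ) (S : Finset E) (φ : Finset E → ℝ) :
    Ex p S (fun F => φ F + 1) = Ex p S φ + 1 := by
  rw [Ex_add, Ex_const]

theorem log_step {x y₁ y₀ : ℝ} (hx0 : 0 ≤ x) (hx : x ≤ 1/4) (h1 : 0 < y₁) (h0 : 0 < y₀)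
    (ha : (1/2 - x) * (y₁ + y₀) ≤ y₁) (hb : y₁ ≤ (1/2 + x) * (y₁ + y₀)) :
    (-Real.log y₁ + -Real.log y₀) / 2 ≤ -Real.log ((y₁ + y₀) / 2) + 3 * x ^ 2 := by
  obtain ⟨s, hs⟩ : ∃ s, s = y₁ + y₀ := ⟨_, rfl⟩
  rw [← hs] at ha hb ⊢
  have hs0 : 0 < s := by rw [hs]; positivity
  have hy : y₀ = s - y₁ := by rw [hs]; ring
  have hp : 0 < y₁ * y₀ := by positivity
  have d1 : -(x * s) ≤ y₁ - s / 2 := by nlinarith
  have d2 : y₁ - s / 2 ≤ x * s := by nlinarith
  have d3 : (y₁ - s / 2) ^ 2 ≤ x ^ 2 * s ^ 2 := by nlinarith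
  have hxx : x ^ 2 ≤ 1/16 := by nlinarith
  have hprod : y₁ * y₀ = s ^ 2 / 4 - (y₁ - s / 2) ^ 2 := by rw [hy]; ring
  have hlow : 3/16 * s ^ 2 ≤ y₁ * y₀ := by nlinarith
  have key : Real.log ((s / 2) ^ 2 / (y₁ * y₀)) ≤ 6 * x ^ 2 := by
    have h3 : (s / 2) ^ 2 / (y₁ * y₀) - 1 ≤ 6 * x ^ 2 := by
      rw [div_sub_one hp.ne', div_le_iff₀ hp]
      have : (s / 2) ^ 2 - y₁ * y₀ = (y₁ - s / 2) ^ 2 := by rw [hprod]; ring
      rw [this]
      nlinarith [mul_le_mul_of_nonneg_left hlow (by positivity : 0 ≤ 6 * x ^ 2)]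
    exact (Real.log_le_sub_one_of_pos (by positivity)).trans h3
  rw [Real.log_div (by positivity) hp.ne', Real.log_mul h1.ne' h0.ne', Real.log_pow] at key
  push_cast at key
  linarith

/-- **The conditional mean given the revealed elements.** -/
theorem hat {S : Finset E} {q : Finset E → Finset E} (hq : Expl S q) {x : ℝ} (hx0 : 0 ≤ x)
    (hx : x ≤ 1/4) : ∀ (n : ℕ) (R O T : Finset E) (f : Finset E → ℝ), R ⊆ S → O ⊆ R →
    T = S \ R → T.card = n → CondIn (1/2 - x) (1/2 + x) T f →
    ∃ g : Finset E → ℝ, (∀ F ⊆ T, 0 < g F) ∧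
      (∀ a : Finset E → ℝ, Loc S q a → Ex (fun _ : E => (1/2:ℝ)) T (fun F => f F * a (O ∪ F)) =
        Ex (fun _ : E => (1/2:ℝ)) T (fun F => g F * a (O ∪ F))) ∧
      Ex (fun _ : E => (1/2:ℝ)) T (fun F => -Real.log (g F)) ≤
        -Real.log (Ex (fun _ : E => (1/2:ℝ)) T f) +
          3 * x ^ 2 * Ex (fun _ : E => (1/2:ℝ)) T (fun F => ((q (O ∪ F) \ R).card : ℝ)) := by
  intro n
  induction n with
  | zero =>
    intro R O T f hR hO hT hn hf
    have hT0 : T = ∅ := Finset.card_eq_zero.mp hn
    subst hT0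
    refine ⟨f, hf.1, fun a _ => rfl, ?_⟩
    rw [Ex_empty, Ex_empty, Ex_empty]
    have : (0:ℝ) ≤ ((q (O ∪ ∅) \ R).card : ℝ) := by positivity
    nlinarith [sq_nonneg x]
  | succ n ih =>
    intro R O T f hR hO hT hn hf
    have hOS : O ⊆ S := hO.trans hR
    have hTS : T ⊆ S := by rw [hT]; exact sdiff_subset
    have hcnt : 0 ≤ Ex (fun _ : E => (1/2:ℝ)) T (fun F => ((q (O ∪ F) \ R).card : ℝ)) :=
      Ex_nonneg ok_half fun F _ => by positivity
    by_cases hc : q O ⊆ R
    · -- nothing is left to reveal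
      refine ⟨fun _ => Ex (fun _ : E => (1/2:ℝ)) T f, fun _ _ => ex_pos hf.1, ?_, ?_⟩
      · intro a ha
        have hcon : ∀ F, F ⊆ T → a (O ∪ F) = a O := by
          intro F hF
          apply ha _ (union_subset hOS (hF.trans hTS)) _ hOS
          ext y
          rw [mem_inter, mem_inter, mem_union]
          constructor
          · rintro ⟨h1 | h1, h2⟩
            · exact ⟨h1, h2⟩
            · have h3 := hF h1
              rw [hT, mem_sdiff] at h3
              exact absurd (hc h2) h3.2
          · rintro ⟨h1, h2⟩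
            exact ⟨Or.inl h1, h2⟩
        have e1 : Ex (fun _ : E => (1/2:ℝ)) T (fun F => f F * a (O ∪ F)) =
            Ex (fun _ : E => (1/2:ℝ)) T f * a O := by
          rw [Ex_congr (g := fun F => f F * a O) (fun F hF => by rw [hcon F hF]), Ex_mul_right]
        have e2 : Ex (fun _ : E => (1/2:ℝ)) T
            (fun F => Ex (fun _ : E => (1/2:ℝ)) T f * a (O ∪ F)) =
            Ex (fun _ : E => (1/2:ℝ)) T f * a O := by
          rw [Ex_congr (g := fun _ => Ex (fun _ : E => (1/2:ℝ)) T f * a O)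
            (fun F hF => by rw [hcon F hF]), Ex_const]
        rw [e1]
        exact e2.symm
      · rw [Ex_const]
        nlinarith [sq_nonneg x]
    · obtain ⟨e, heS, heR, he⟩ := hq.seq R hR O hO hc
      have heT : e ∈ T := by rw [hT, mem_sdiff]; exact ⟨heS, heR⟩
      obtain ⟨T', hT'⟩ : ∃ T', T' = T.erase e := ⟨_, rfl⟩
      have heT' : e ∉ T' := by rw [hT']; exact notMem_erase e T
      have hTi : T = insert e T' := by rw [hT', insert_erase heT]
      have hT'R : T' = S \ insert e R := by
        rw [hT', hT]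
        ext y
        rw [mem_erase, mem_sdiff, mem_sdiff, mem_insert, not_or]
        tauto
      have hcard : T'.card = n := by
        rw [hT', card_erase_of_mem heT, hn]; rfl
      have hR' : insert e R ⊆ S := insert_subset heS hR
      have heO : e ∉ O := fun h => heR (hO h)
      rw [hTi] at hf ⊢
      obtain ⟨g₁, p1, a1, l1⟩ := ih (insert e R) (insert e O) T' (fun F => f (insert e F)) hR'
        (insert_subset_insert _ hO) hT'R hcard (CondIn.one heT' hf)
      obtain ⟨g₀, p0, a0, l0⟩ := ih (insert e R) O T' f hR'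
        (hO.trans (subset_insert _ _)) hT'R hcard (CondIn.zero hf)
      have hun : ∀ F, O ∪ insert e F = insert e O ∪ F := by
        intro F
        rw [union_insert, insert_union]
      have heF : ∀ F, F ⊆ T' → e ∉ F := fun F hF h => heT' (hF h)
      refine ⟨fun F => if e ∈ F then g₁ (F.erase e) else g₀ F, ?_, ?_, ?_⟩
      · intro F hF
        beta_reduce
        split_ifs with h
        · apply p1
          rw [hTi.symm] at hF
          rw [hT']
          exact erase_subset_erase e hF
        · apply p0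
          intro y hy
          rcases mem_insert.mp (hF hy) with h2 | h2
          · exact absurd (h2 ▸ hy) h
          · exact h2
      · intro a ha
        rw [ex_half_insert heT', ex_half_insert heT']
        congr 1
        congr 1
        · have := a1 a ha
          rw [Ex_congr (g := fun F => f (insert e F) * a (insert e O ∪ F))
            (fun F _ => by rw [hun]), this]
          apply Ex_congr
          intro F hF
          beta_reduce
          rw [if_pos (mem_insert_self e F), erase_insert (heF F hF), hun]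
        · rw [a0 a ha]
          apply Ex_congr
          intro F hF
          beta_reduce
          rw [if_neg (heF F hF)]
      · rw [ex_half_insert heT', ex_half_insert heT', ex_half_insert heT']
        -- the ratio
        have hr : (1/2 - x) * (Ex (fun _ : E => (1/2:ℝ)) T' (fun F => f (insert e F)) +
            Ex (fun _ : E => (1/2:ℝ)) T' f) ≤
            Ex (fun _ : E => (1/2:ℝ)) T' (fun F => f (insert e F)) ∧
            Ex (fun _ : E => (1/2:ℝ)) T' (fun F => f (insert e F)) ≤
            (1/2 + x) * (Ex (fun _ : E => (1/2:ℝ)) T' (fun F => f (insert e F)) +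
            Ex (fun _ : E => (1/2:ℝ)) T' f) := by
          rw [← Ex_add, ← Ex_mul_left, ← Ex_mul_left]
          constructor
          · exact Ex_mono ok_half fun F hF => (hf.2 e (mem_insert_self _ _) F
              (hF.trans (subset_insert _ _)) (heF F hF)).1
          · exact Ex_mono ok_half fun F hF => (hf.2 e (mem_insert_self _ _) F
              (hF.trans (subset_insert _ _)) (heF F hF)).2
        have y1 : 0 < Ex (fun _ : E => (1/2:ℝ)) T' (fun F => f (insert e F)) :=
          ex_pos (CondIn.one heT' hf).1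
        have y0 : 0 < Ex (fun _ : E => (1/2:ℝ)) T' f := ex_pos (CondIn.zero hf).1
        have hlog := log_step hx0 hx y1 y0 hr.1 hr.2
        have e1 : Ex (fun _ : E => (1/2:ℝ)) T' (fun F => -Real.log
            (if e ∈ insert e F then g₁ ((insert e F).erase e) else g₀ (insert e F))) =
            Ex (fun _ : E => (1/2:ℝ)) T' (fun F => -Real.log (g₁ F)) := by
          apply Ex_congr
          intro F hF
          rw [if_pos (mem_insert_self e F), erase_insert (heF F hF)]
        have e0 : Ex (fun _ : E => (1/2:ℝ)) T' (fun F => -Real.log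
            (if e ∈ F then g₁ (F.erase e) else g₀ F)) =
            Ex (fun _ : E => (1/2:ℝ)) T' (fun F => -Real.log (g₀ F)) := by
          apply Ex_congr
          intro F hF
          rw [if_neg (heF F hF)]
        have hT'S : T' ⊆ S := by rw [hT'R]; exact sdiff_subset
        have hint : ∀ F O', F ⊆ T' → (O' = O ∨ O' = insert e O) → (O' ∪ F) ∩ R = O := by
          intro F O' hF hO'
          ext y
          rw [mem_inter, mem_union]
          have hF2 : y ∈ F → y ∉ R := fun h hR2 => by
            have := hF h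
            rw [hT'R, mem_sdiff, mem_insert] at this
            exact this.2 (Or.inr hR2)
          constructor
          · rintro ⟨h1 | h1, h2⟩
            · rcases hO' with rfl | rfl
              · exact h1
              · rcases mem_insert.mp h1 with h3 | h3
                · exact absurd (h3 ▸ h2) heR
                · exact h3
            · exact absurd h2 (hF2 h1)
          · intro h1
            refine ⟨Or.inl ?_, hO h1⟩
            rcases hO' with rfl | rfl
            · exact h1
            · exact mem_insert_of_mem h1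
        have hcd : ∀ F O', F ⊆ T' → (O' = O ∨ O' = insert e O) →
            (((q (O' ∪ F) \ R).card : ℕ) : ℝ) = ((q (O' ∪ F) \ insert e R).card : ℝ) + 1 := by
          intro F O' hF hO'
          have hsub : O' ∪ F ⊆ S := by
            apply union_subset _ (hF.trans hT'S)
            rcases hO' with rfl | rfl
            · exact hOS
            · exact insert_subset heS hOS
          have heq := he _ hsub (hint F O' hF hO')
          have : q (O' ∪ F) \ R = insert e (q (O' ∪ F) \ insert e R) := by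
            ext y
            rw [mem_insert, mem_sdiff, mem_sdiff, mem_insert]
            constructor
            · rintro ⟨h1, h2⟩
              by_cases hy : y = e
              · exact Or.inl hy
              · exact Or.inr ⟨h1, fun h => h.elim hy h2⟩
            · rintro (rfl | ⟨h1, h2⟩)
              · exact ⟨heq, heR⟩
              · exact ⟨h1, fun h => h2 (Or.inr h)⟩
          rw [this, card_insert_of_notMem (by simp)]
          push_cast
          rfl
        have c1 : Ex (fun _ : E => (1/2:ℝ)) T' (fun F => ((q (O ∪ insert e F) \ R).card : ℝ)) =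
            Ex (fun _ : E => (1/2:ℝ)) T'
              (fun F => ((q (insert e O ∪ F) \ insert e R).card : ℝ)) + 1 := by
          rw [← ex_add_one]
          apply Ex_congr
          intro F hF
          rw [hun]
          exact hcd F _ hF (Or.inr rfl)
        have c0 : Ex (fun _ : E => (1/2:ℝ)) T' (fun F => ((q (O ∪ F) \ R).card : ℝ)) =
            Ex (fun _ : E => (1/2:ℝ)) T'
              (fun F => ((q (O ∪ F) \ insert e R).card : ℝ)) + 1 := by
          rw [← ex_add_one]
          apply Ex_congr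
          intro F hF
          exact hcd F _ hF (Or.inl rfl)
        rw [e1, e0, c1, c0]
        nlinarith [sq_nonneg x]

theorem abs_sub_one_le {y θ : ℝ} (hy : 0 < y) (hθ : 0 < θ) :
    |y - 1| ≤ θ * (y + 1) + (y - 1 - Real.log y) / (2 * θ) := by
  obtain ⟨s, hs⟩ : ∃ s, s = Real.sqrt y := ⟨_, rfl⟩
  have hs0 : 0 < s := hs ▸ Real.sqrt_pos.mpr hy
  have hy2 : y = s * s := by rw [hs, Real.mul_self_sqrt hy.le]
  have hl : Real.log y ≤ 2 * (s - 1) := by
    rw [hy2, Real.log_mul hs0.ne' hs0.ne']
    linarith [Real.log_le_sub_one_of_pos hs0]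
  have h1 : (s - 1) ^ 2 ≤ y - 1 - Real.log y := by rw [hy2] at hl ⊢; nlinarith
  have h2 : |y - 1| = |s - 1| * (s + 1) := by
    rw [hy2, show s * s - 1 = (s - 1) * (s + 1) by ring, abs_mul, abs_of_pos (by linarith : 0 < s + 1)]
  have h3 : |s - 1| * (s + 1) ≤ θ * (y + 1) + (s - 1) ^ 2 / (2 * θ) := by
    rw [← sq_abs (s - 1)]
    obtain ⟨u, hu⟩ : ∃ u, u = |s - 1| := ⟨_, rfl⟩
    rw [← hu, hy2]
    have h4 : 0 ≤ (u - θ * (s + 1)) ^ 2 / (2 * θ) := by positivity
    have h5 : (u - θ * (s + 1)) ^ 2 / (2 * θ) =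
        u ^ 2 / (2 * θ) - u * (s + 1) + θ * (s + 1) ^ 2 / 2 := by
      field_simp
      ring
    have h6 : (s + 1) ^ 2 ≤ 2 * (s * s + 1) := by nlinarith [sq_nonneg (s - 1)]
    nlinarith
  rw [h2]
  refine h3.trans ?_
  gcongr

/-- **The upper bound for the total variation distance.** -/
theorem tv_le {S : Finset E} {q : Finset E → Finset E} (hq : Expl S q) {x : ℝ} (hx0 : 0 ≤ x)
    (hx : x ≤ 1/4) {f : Finset E → ℝ} (hf : CondIn (1/2 - x) (1/2 + x) S f)
    {a : Finset E → ℝ} (ha : Loc S q a) (ha1 : ∀ F, |a F| ≤ 1) {L : ℝ}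
    (hL : Ex (fun _ : E => (1/2:ℝ)) S (fun F => ((q F).card : ℝ)) ≤ L) {θ : ℝ} (hθ : 0 < θ) :
    |Ex (fun _ : E => (1/2:ℝ)) S (fun F => f F * a F) / Ex (fun _ : E => (1/2:ℝ)) S f -
      Ex (fun _ : E => (1/2:ℝ)) S a| ≤ 2 * θ + 3 * x ^ 2 * L / (2 * θ) := by
  obtain ⟨g, hg, hga, hgl⟩ := hat hq hx0 hx S.card ∅ ∅ S f (empty_subset _) (empty_subset _)
    (by simp) rfl hf
  simp only [empty_union, sdiff_empty] at hga hgl
  obtain ⟨Z, hZ⟩ : ∃ Z, Z = Ex (fun _ : E => (1/2:ℝ)) S f := ⟨_, rfl⟩
  have hZ0 : 0 < Z := hZ ▸ ex_pos hf.1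
  have hg1 : Ex (fun _ : E => (1/2:ℝ)) S (fun F => g F / Z) = 1 := by
    have h1 := hga (fun _ => 1) (fun _ _ _ _ _ => rfl)
    simp only [mul_one] at h1
    have h2 : Ex (fun _ : E => (1/2:ℝ)) S (fun F => g F / Z) =
        Ex (fun _ : E => (1/2:ℝ)) S g / Z := by
      rw [Ex_congr (g := fun F => g F * Z⁻¹) (fun F _ => div_eq_mul_inv _ _), Ex_mul_right]
      exact (div_eq_mul_inv _ _).symm
    rw [h2, ← h1, ← hZ, div_self hZ0.ne']
  have hlog : Ex (fun _ : E => (1/2:ℝ)) S (fun F => -Real.log (g F / Z)) ≤ 3 * x ^ 2 * L := by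
    have h2 : Ex (fun _ : E => (1/2:ℝ)) S (fun F => -Real.log (g F / Z)) =
        Ex (fun _ : E => (1/2:ℝ)) S (fun F => -Real.log (g F)) + Real.log Z := by
      have h3 := Ex_const (fun _ : E => (1/2:ℝ)) S (Real.log Z)
      conv_rhs => rw [← h3]
      rw [← Ex_add]
      apply Ex_congr
      intro F hF
      rw [Real.log_div (hg F hF).ne' hZ0.ne']
      ring
    rw [h2]
    rw [← hZ] at hgl
    nlinarith [mul_le_mul_of_nonneg_left hL (by positivity : 0 ≤ 3 * x ^ 2)]
  have hdiff : Ex (fun _ : E => (1/2:ℝ)) S (fun F => f F * a F) / Z -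
      Ex (fun _ : E => (1/2:ℝ)) S a =
      Ex (fun _ : E => (1/2:ℝ)) S (fun F => (g F / Z - 1) * a F) := by
    have h1 : Ex (fun _ : E => (1/2:ℝ)) S (fun F => f F * a F) / Z =
        Ex (fun _ : E => (1/2:ℝ)) S (fun F => g F * a F * Z⁻¹) := by
      rw [hga a ha, Ex_mul_right]
      exact div_eq_mul_inv _ _
    rw [h1, ← Ex_sub]
    apply Ex_congr
    intro F _
    field_simp
  rw [← hZ, hdiff]
  have hb : ∀ F, F ⊆ S → |(g F / Z - 1) * a F| ≤
      θ * (g F / Z + 1) + (g F / Z - 1 - Real.log (g F / Z)) / (2 * θ) := by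
    intro F hF
    rw [abs_mul]
    refine le_trans ?_ (abs_sub_one_le (div_pos (hg F hF) hZ0) hθ)
    nlinarith [abs_nonneg (g F / Z - 1), ha1 F, abs_nonneg (a F)]
  have hsum : Ex (fun _ : E => (1/2:ℝ)) S (fun F => θ * (g F / Z + 1) +
      (g F / Z - 1 - Real.log (g F / Z)) / (2 * θ)) ≤ 2 * θ + 3 * x ^ 2 * L / (2 * θ) := by
    have h1 : Ex (fun _ : E => (1/2:ℝ)) S (fun F => θ * (g F / Z + 1) +
        (g F / Z - 1 - Real.log (g F / Z)) / (2 * θ)) =
        (θ + 1 / (2 * θ)) * Ex (fun _ : E => (1/2:ℝ)) S (fun F => g F / Z) +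
          1 / (2 * θ) * Ex (fun _ : E => (1/2:ℝ)) S (fun F => -Real.log (g F / Z)) +
          (θ - 1 / (2 * θ)) := by
      have h3 := Ex_const (fun _ : E => (1/2:ℝ)) S (θ - 1 / (2 * θ))
      conv_rhs => rw [← h3]
      rw [← Ex_mul_left, ← Ex_mul_left, ← Ex_add, ← Ex_add]
      apply Ex_congr
      intro F _
      field_simp
      ring
    rw [h1, hg1]
    have h2 : 1 / (2 * θ) * Ex (fun _ : E => (1/2:ℝ)) S (fun F => -Real.log (g F / Z)) ≤
        1 / (2 * θ) * (3 * x ^ 2 * L) := mul_le_mul_of_nonneg_left hlog (by positivity)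
    have h4 : 1 / (2 * θ) * (3 * x ^ 2 * L) = 3 * x ^ 2 * L / (2 * θ) := by ring
    linarith
  rw [abs_le]
  constructor
  · have h1 : Ex (fun _ : E => (1/2:ℝ)) S (fun F => -(θ * (g F / Z + 1) +
        (g F / Z - 1 - Real.log (g F / Z)) / (2 * θ))) ≤
        Ex (fun _ : E => (1/2:ℝ)) S (fun F => (g F / Z - 1) * a F) :=
      Ex_mono ok_half fun F hF => (abs_le.mp (hb F hF)).1
    have h2 : Ex (fun _ : E => (1/2:ℝ)) S (fun F => -(θ * (g F / Z + 1) +
        (g F / Z - 1 - Real.log (g F / Z)) / (2 * θ))) =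
        (-1) * Ex (fun _ : E => (1/2:ℝ)) S (fun F => θ * (g F / Z + 1) +
        (g F / Z - 1 - Real.log (g F / Z)) / (2 * θ)) := by
      rw [← Ex_mul_left]
      exact Ex_congr fun F _ => by ring
    rw [h2] at h1
    linarith
  · exact (Ex_mono ok_half fun F hF => (abs_le.mp (hb F hF)).2).trans hsum

end Pool.Agent.K9h80.TV
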