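import Pool.Agent.K9h80.TV.Up
import Pool.Agent.H984R4.NP.Walk
import Pool.Agent.H984R4.NP.Clu

/-!
# The interface of a lattice rectangle as an exploration
-/

set_option autoImplicit false

namespace Pool.Agent.K9h80.TV

open H974 Finset H342P H984P H984N

open Classical in
/-- the edges which are not wired -/
noncomputable def fre (D : Dm) : Finset Edg := D.edges.filter (fun e => e ∉ D.wir)

theorem mem_fre {D : Dm} {e : Edg} : e ∈ fre D ↔ e ∈ D.edges ∧ e ∉ D.wir := by
  classical
  unfold fre
  rw [mem_filter]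

theorem fre_sub (D : Dm) : fre D ⊆ D.edges := fun _ h => (mem_fre.1 h).1

/-- the edges examined by the interface -/
noncomputable def exd (D : Dm) (F : Finset Edg) : Finset Edg :=
  ((range (D.len F)).image fun k => ae (D.walk F k)) ∩ fre D

theorem mem_exd {D : Dm} {F : Finset Edg} {e : Edg} :
    e ∈ exd D F ↔ (∃ k < D.len F, ae (D.walk F k) = e) ∧ e ∈ fre D := by
  unfold exd
  rw [mem_inter, mem_image]
  constructor
  · rintro ⟨⟨k, hk, h⟩, h2⟩
    exact ⟨⟨k, mem_range.mp hk, h⟩, h2⟩
  · rintro ⟨⟨k, hk, h⟩, h2⟩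
    exact ⟨⟨k, mem_range.mpr hk, h⟩, h2⟩

theorem walk_eq {D : Dm} {F G : Finset Edg} {n : ℕ} (hF : F ⊆ fre D) (hG : G ⊆ fre D)
    (h : ∀ k < n, ae (D.walk G k) ∈ fre D → (ae (D.walk G k) ∈ F ↔ ae (D.walk G k) ∈ G)) :
    ∀ k ≤ n, D.walk F k = D.walk G k := by
  intro k
  induction k with
  | zero => intro _; rfl
  | succ k ih =>
    intro hk
    have h1 := ih (by omega)
    rw [H984N.walk_succ, H984N.walk_succ, h1]
    have h2 : ae (D.walk G k) ∈ D.cfg F ↔ ae (D.walk G k) ∈ D.cfg G := by
      unfold Dm.cfg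
      rw [Set.mem_union, Set.mem_union, mem_coe, mem_coe]
      by_cases hf : ae (D.walk G k) ∈ fre D
      · rw [h k (by omega) hf]
      · constructor
        · rintro (h3 | h3)
          · exact absurd (hF h3) hf
          · exact Or.inr h3
        · rintro (h3 | h3)
          · exact absurd (hG h3) hf
          · exact Or.inr h3
    by_cases h3 : ae (D.walk G k) ∈ D.cfg G
    · rw [nxt_open h3, nxt_open (h2.2 h3)]
    · rw [nxt_closed h3, nxt_closed (fun h4 => h3 (h2.1 h4))]

theorem len_le_of_stop {D : Dm} {F : Finset Edg} {k : ℕ} (h : D.walk F k = Dm.stop) :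
    D.len F ≤ k := Nat.sInf_le h

theorem len_eq {D : Dm} (hD : D.Ok) {F G : Finset Edg} (hF : F ⊆ fre D) (hG : G ⊆ fre D)
    (h : ∀ k ≤ D.len G, D.walk F k = D.walk G k) : D.len F = D.len G := by
  have h1 : D.len F ≤ D.len G := by
    apply len_le_of_stop
    rw [h _ le_rfl]
    exact walk_len hD (hG.trans (fre_sub D))
  apply le_antisymm h1
  apply len_le_of_stop
  rw [← h _ h1]
  exact walk_len hD (hF.trans (fre_sub D))

theorem same_of {D : Dm} (hD : D.Ok) {F G : Finset Edg} (hF : F ⊆ fre D) (hG : G ⊆ fre D)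
    (h : F ∩ exd D G = G ∩ exd D G) :
    D.len F = D.len G ∧ ∀ k ≤ D.len G, D.walk F k = D.walk G k := by
  have h1 : ∀ k ≤ D.len G, D.walk F k = D.walk G k := by
    apply walk_eq hF hG
    intro k hk hf
    have := Finset.ext_iff.mp h (ae (D.walk G k))
    have hm : ae (D.walk G k) ∈ exd D G := mem_exd.2 ⟨⟨k, hk, rfl⟩, hf⟩
    rw [mem_inter, mem_inter] at this
    tauto
  exact ⟨len_eq hD hF hG h1, h1⟩

/-- **The interface is an exploration.** -/
theorem expl {D : Dm} (hD : D.Ok) : Expl (fre D) (exd D) := by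
  refine ⟨fun F _ => inter_subset_right, fun F hF G hG h => ?_, fun R hR O hO hn => ?_⟩
  · obtain ⟨h1, h2⟩ := same_of hD hF hG h
    ext e
    rw [mem_exd, mem_exd, h1]
    constructor
    · rintro ⟨⟨k, hk, h3⟩, h4⟩
      exact ⟨⟨k, hk, by rw [← h2 k hk.le]; exact h3⟩, h4⟩
    · rintro ⟨⟨k, hk, h3⟩, h4⟩
      exact ⟨⟨k, hk, by rw [h2 k hk.le]; exact h3⟩, h4⟩
  · classical
    have hOf : O ⊆ fre D := hO.trans hR
    obtain ⟨e0, he0, he0R⟩ := Finset.not_subset.mp hn
    obtain ⟨⟨k1, hk1, hk1e⟩, hk1f⟩ := mem_exd.1 he0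
    have hex : ∃ k, k < D.len O ∧ ae (D.walk O k) ∈ fre D ∧ ae (D.walk O k) ∉ R :=
      ⟨k1, hk1, by rw [hk1e]; exact hk1f, by rw [hk1e]; exact he0R⟩
    obtain ⟨g1, g2, g3⟩ := Nat.find_spec hex
    have hmin := fun k (hk : k < Nat.find hex) => Nat.find_min hex hk
    set k0 := Nat.find hex with hk0
    refine ⟨ae (D.walk O k0), g2, g3, ?_⟩
    intro F hF hFR
    have hw : ∀ k ≤ k0, D.walk F k = D.walk O k := by
      apply walk_eq hF hOf
      intro k hk hf
      have h1 := hmin k hk
      have h2 : ae (D.walk O k) ∈ R := by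
        by_contra h3
        exact h1 ⟨by omega, hf, h3⟩
      have h3 := Finset.ext_iff.mp hFR (ae (D.walk O k))
      rw [mem_inter] at h3
      tauto
    rw [mem_exd]
    refine ⟨⟨k0, ?_, by rw [hw k0 le_rfl]⟩, g2⟩
    by_contra hlt
    have h1 := walk_len hD (hF.trans (fre_sub D))
    rw [hw _ (not_lt.mp hlt)] at h1
    have := len_le_of_stop h1
    omega

/-! ### the number of examined edges -/

theorem exd_card_le (D : Dm) (F : Finset Edg) : (exd D F).card ≤ D.len F := by
  unfold exd
  refine (card_le_card inter_subset_left).trans ?_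
  refine card_image_le.trans ?_
  rw [card_range]

open Classical in
/-- the states which examine a given edge -/
theorem ae_two (e : Edg) (s : Finset St) : (s.filter fun σ => ae σ = e).card ≤ 2 := by
  obtain ⟨x, y, b⟩ := e
  cases b
  · have : (s.filter fun σ => ae σ = (x, y, false)) ⊆ {((x, y), .nw), ((x, y + 1), .se)} := by
      intro σ hσ
      rw [mem_filter] at hσ
      obtain ⟨⟨u, v⟩, q⟩ := σ
      have h := hσ.2
      rw [mem_insert, mem_singleton]
      cases q
      · simp at h
      · simp only [ae_nw, Prod.mk.injEq, and_true] at h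
        left; rw [h.1, h.2]
      · simp at h
      · simp only [ae_se, Prod.mk.injEq, and_true] at h
        right; rw [h.1, ← h.2]; simp
    exact (card_le_card this).trans card_le_two
  · have : (s.filter fun σ => ae σ = (x, y, true)) ⊆ {((x, y), .ne), ((x + 1, y), .sw)} := by
      intro σ hσ
      rw [mem_filter] at hσ
      obtain ⟨⟨u, v⟩, q⟩ := σ
      have h := hσ.2
      rw [mem_insert, mem_singleton]
      cases q
      · simp only [ae_ne, Prod.mk.injEq, and_true] at h
        left; rw [h.1, h.2]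
      · simp at h
      · simp only [ae_sw, Prod.mk.injEq, and_true] at h
        right; rw [← h.1, h.2]; simp
      · simp at h
    exact (card_le_card this).trans card_le_two

/-- the states over the boundary of the rectangle -/
noncomputable def bst (D : Dm) : Finset St :=
  ((({D.l, D.r} : Finset ℤ) ×ˢ Finset.Icc 0 D.h) ∪ (Finset.Icc D.l D.r ×ˢ ({0, D.h} : Finset ℤ)))
    ×ˢ (Finset.univ : Finset Q4)

theorem bst_card {D : Dm} (hD : D.Ok) :
    ((bst D).card : ℝ) ≤ 8 * ((D.h : ℝ) + 1) + 8 * ((D.r : ℝ) - D.l + 1) := by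
  obtain ⟨d1, d2, d3, d4, d5⟩ := hD
  have h4 : (Finset.univ : Finset Q4).card = 4 := rfl
  have h1 : (bst D).card ≤ (2 * (D.h + 1).toNat + (D.r + 1 - D.l).toNat * 2) * 4 := by
    unfold bst
    rw [card_product, h4]
    gcongr
    refine (card_union_le _ _).trans ?_
    rw [card_product, card_product, Int.card_Icc, Int.card_Icc]
    gcongr
    · exact card_le_two
    · omega
    · exact card_le_two
  have e1 : (((D.h + 1).toNat : ℕ) : ℝ) = (D.h : ℝ) + 1 := by
    have : (((D.h + 1).toNat : ℕ) : ℤ) = D.h + 1 := by omega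
    exact_mod_cast this
  have e2 : (((D.r + 1 - D.l).toNat : ℕ) : ℝ) = (D.r : ℝ) + 1 - D.l := by
    have : (((D.r + 1 - D.l).toNat : ℕ) : ℤ) = D.r + 1 - D.l := by omega
    exact_mod_cast this
  have h2 : ((bst D).card : ℝ) ≤
      (2 * (((D.h + 1).toNat : ℕ) : ℝ) + (((D.r + 1 - D.l).toNat : ℕ) : ℝ) * 2) * 4 := by
    exact_mod_cast h1
  rw [e1, e2] at h2
  linarith

theorem bst_of {D : Dm} (hD : D.Ok) {σ : St} (h : inR D.l D.r 0 D.h σ.1)
    (hf : ae σ ∉ fre D) : σ ∈ bst D := by
  obtain ⟨d1, d2, d3, d4, d5⟩ := hD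
  rw [mem_fre, not_and_or, not_not] at hf
  unfold bst
  rw [mem_product]
  refine ⟨?_, mem_univ _⟩
  rw [mem_union, mem_product, mem_product, mem_Icc, mem_Icc, mem_insert, mem_singleton,
    mem_insert, mem_singleton]
  obtain ⟨⟨x, y⟩, q⟩ := σ
  unfold inR at h
  unfold Dm.edges Dm.wir at hf
  simp only [Set.mem_ofPred_eq] at hf
  cases q
  · simp only [ae_ne, mem_RE_true] at hf
    simp at hf h ⊢
    omega
  · simp only [ae_nw, mem_RE_false] at hf
    simp at hf h ⊢
    omega
  · simp only [ae_sw, mem_RE_true] at hf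
    simp at hf h ⊢
    omega
  · simp only [ae_se, mem_RE_false] at hf
    simp at hf h ⊢
    omega

theorem len_le_exd {D : Dm} (hD : D.Ok) {F : Finset Edg} (hF : F ⊆ D.edges) :
    D.len F ≤ 2 * (exd D F).card + (bst D).card := by
  classical
  have hinj : ∀ i ∈ (range (D.len F) : Finset ℕ), ∀ j ∈ (range (D.len F) : Finset ℕ),
      D.walk F i = D.walk F j → i = j := by
    intro i hi j hj h
    rw [mem_range] at hi hj
    rcases lt_trichotomy i j with h1 | h1 | h1
    · exact absurd h (walk_inj hD hF h1 hj.le)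
    · exact h1
    · exact absurd h.symm (walk_inj hD hF h1 hi.le)
  have hsplit := card_filter_add_card_filter_not (s := range (D.len F))
    (fun k => ae (D.walk F k) ∈ fre D)
  rw [card_range] at hsplit
  have h1 : ((range (D.len F)).filter fun k => ae (D.walk F k) ∈ fre D).card ≤
      2 * (exd D F).card := by
    have himg : ((range (D.len F)).filter fun k => ae (D.walk F k) ∈ fre D).image
        (fun k => ae (D.walk F k)) ⊆ exd D F := by
      intro e he
      rw [mem_image] at he
      obtain ⟨k, hk, hke⟩ := he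
      rw [mem_filter, mem_range] at hk
      exact mem_exd.2 ⟨⟨k, hk.1, hke⟩, hke ▸ hk.2⟩
    refine (card_le_mul_card_image _ 2 ?_).trans (Nat.mul_le_mul_left 2 (card_le_card himg))
    intro e _
    have h2 : ((((range (D.len F)).filter fun k => ae (D.walk F k) ∈ fre D).filter
        fun k => ae (D.walk F k) = e).image (D.walk F)).card ≤ 2 := by
      refine le_trans (card_le_card ?_) (ae_two e ((range (D.len F)).image (D.walk F)))
      intro σ hσ
      rw [mem_image] at hσ
      obtain ⟨k, hk, rfl⟩ := hσ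
      rw [mem_filter, mem_filter] at hk
      rw [mem_filter]
      exact ⟨mem_image_of_mem _ hk.1.1, hk.2⟩
    rwa [card_image_of_injOn] at h2
    intro i hi j hj h
    rw [mem_coe, mem_filter, mem_filter] at hi hj
    exact hinj i hi.1.1 j hj.1.1 h
  have h3 : ((range (D.len F)).filter fun k => ¬ ae (D.walk F k) ∈ fre D).card ≤
      (bst D).card := by
    apply card_le_card_of_injOn (D.walk F)
    · intro k hk
      rw [mem_coe, mem_filter] at hk
      exact bst_of hD (walk_in hD hF k) hk.2
    · intro i hi j hj h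
      rw [mem_coe, mem_filter] at hi hj
      exact hinj i hi.1 j hj.1 h
  omega

end Pool.Agent.K9h80.TV
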